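import Pool.Agent.Lib.HL2.ExpPairs

/-!
# Lower bounds for the sum of tuple counts from one residue class, and exponential shifts
-/

set_option autoImplicit false

open Finset Filter Topology

namespace Pool.Agent.HL2

open Pool.Agent.Lib.Sieve4 Pool.Agent.HL

/-- If every `b ∈ B` is allowed in the class `u` modulo `q = ∏ p`, and the mean number of primes in this
class is at least `2 r²`, then the total number of tuples is `≥ x / q`. -/
lemma lower_class (r : ℕ) (hr : 1 ≤ r) (s1 : Finset ℕ) (h1 : ∀ p ∈ s1, p.Prime) :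
    ∃ ξ : ℝ, 0 < ξ ∧ ∀ᶠ x : ℕ in atTop, ∀ (B : Finset ℕ) (u : ℕ), goodB s1 B 0 1 u = B →
      (∀ b ∈ B, (b:ℝ) * Real.log x ≤ ξ * x) →
      6 * (r:ℝ) ^ 2 * Real.log x * (∏ p ∈ s1, ((p:ℝ) - 1)) ≤ B.card * ∏ p ∈ s1, (p:ℝ) →
      (x:ℝ) / (∏ p ∈ s1, (p:ℝ)) ≤ ∑ b ∈ injTuples r B, (tcount (shift 0 1 b) x : ℝ) := by
  classical
  set q := ∏ p ∈ s1, p with hq
  have hqpos : 0 < q := Finset.prod_pos fun p hp => (h1 p hp).pos
  have : NeZero q := ⟨hqpos.ne'⟩
  have hqR : (q:ℝ) = ∏ p ∈ s1, (p:ℝ) := by rw [hq]; push_cast; rfl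
  have hq1 : (1:ℝ) ≤ q := by exact_mod_cast hqpos
  have hφ := totient_prod s1 h1
  rw [← hq] at hφ
  have hφ0 : (0:ℝ) < q.totient := by exact_mod_cast Nat.totient_pos.mpr hqpos
  have hpnt := eventually_piAP_ge q (ε := 1/4) (by norm_num)
  refine ⟨1 / (8 * q.totient), by positivity, ?_⟩
  have hev1 := eventually_rpow_le (θ := 0) (by norm_num) (A := 8 * q.totient) (k := 1) (by positivity)
  filter_upwards [hpnt, hev1, eventually_ge_atTop 3, eventually_ge_atTop (2 * (1 + q * q))]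
    with x hx1 hx2 hx3 hx4 B u hgood hB hcard
  have hx0 : (0:ℝ) < x := by
    have : 0 < x := by omega
    exact_mod_cast this
  have hx1' : (1:ℝ) < x := by
    have : 1 < x := by omega
    exact_mod_cast this
  have hlog : 0 < Real.log x := Real.log_pos hx1'
  rw [Real.rpow_zero, mul_one, pow_one] at hx2
  set Λ := Real.log x with hΛ
  rw [← hφ, ← hqR] at hcard
  rw [← hqR]
  set τ : ℝ := (1/2) * x / (q.totient * Λ) with hτ
  set N0 : ℝ := (3/2) * x / q with hN0
  have hτ0 : 0 < τ := by positivity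
  have hN00 : 0 < N0 := by positivity
  have hN : ((NN s1 ((1:ℕ).primeFactors \ s1) 0 1 x u).card : ℝ) ≤ N0 := by
    refine (card_NN_le s1 h1 0 1 1 x u (by omega)).trans ?_
    rw [← hqR]
    simp only [Nat.primeFactors_one, Finset.empty_sdiff, Finset.prod_empty, mul_one, Nat.cast_one]
    rw [hN0, le_div_iff₀ (by positivity)]
    have h4 : 2 * (1 + (q:ℝ) * q) ≤ x := by exact_mod_cast hx4
    have h5 : (((x:ℝ) + 1) / q + q) * q = x + 1 + q * q := by field_simp
    rw [h5]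
    linarith
  have hT : ∀ b ∈ goodB s1 B 0 1 u, τ ≤ (((Ioc 1 x).filter (fun n => (∀ p ∈ s1, n % p = u % p) ∧
      (n + (0 + 1 * b)).Prime)).card : ℝ) := by
    intro b hb
    have hb2 := mem_filter.mp hb
    refine le_trans ?_ (card_class_ge s1 1 (0 + 1 * b) x u)
    have hunit : IsUnit (((u + (0 + 1 * b) : ℕ) : ZMod q)) := by
      rw [ZMod.isUnit_iff_coprime]
      apply Nat.Coprime.prod_right
      intro p hp
      rw [Nat.coprime_comm, Nat.Prime.coprime_iff_not_dvd (h1 p hp)]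
      exact hb2.2 p hp
    have h2 := hx1 _ hunit
    rw [← hq]
    have h3 := hB b hb2.1
    have h6 : (b:ℝ) ≤ (1/8) * x / (q.totient * Λ) := by
      rw [le_div_iff₀ (by positivity)]
      calc (b:ℝ) * (q.totient * Λ) = q.totient * (b * Λ) := by ring
        _ ≤ q.totient * (1 / (8 * q.totient) * x) := by gcongr
        _ = 1/8 * x := by field_simp
    have h7 : (1:ℝ) ≤ (1/8) * x / (q.totient * Λ) := by
      rw [le_div_iff₀ (by positivity)]
      linarith
    have h8 : τ = (1 - 1/4) * x / (q.totient * Λ) - (1/8) * x / (q.totient * Λ)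
        - (1/8) * x / (q.totient * Λ) := by
      rw [hτ]; ring
    rw [h8]
    push_cast
    push_cast at h2
    linarith
  have hmain := class_lower s1 B 0 1 1 x u r hr le_rfl le_rfl hτ0.le hN00 hN hT
  rw [hgood] at hmain
  set μ : ℝ := τ * B.card / N0 with hμ
  have hr1 : (1:ℝ) ≤ r := by exact_mod_cast hr
  have hμge : 2 * (r:ℝ) ^ 2 ≤ μ := by
    rw [hμ, le_div_iff₀ hN00, hN0, hτ]
    have h9 : (1/2) * x / (q.totient * Λ) * B.card = (B.card * q) * (x / (2 * (q.totient * Λ) * q)) := by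
      field_simp
    have h10 : 2 * (r:ℝ) ^ 2 * ((3/2) * x / q) = (6 * (r:ℝ) ^ 2 * Λ * q.totient) *
        (x / (2 * (q.totient * Λ) * q)) := by
      field_simp
      ring
    rw [h9, h10]
    gcongr
  have hμ1 : 1 ≤ μ := by nlinarith
  have h11 : N0 ≤ N0 * (μ ^ r - (r:ℝ) ^ 2 * μ ^ (r - 1)) := by
    have h12 : 1 ≤ μ ^ r - (r:ℝ) ^ 2 * μ ^ (r - 1) := by
      obtain ⟨k, rfl⟩ : ∃ k, r = k + 1 := ⟨r - 1, by omega⟩
      simp only [Nat.add_sub_cancel]
      have h13 : 1 ≤ μ ^ k := one_le_pow₀ hμ1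
      have h14 : μ ^ (k+1) - ((k + 1 : ℕ) : ℝ) ^ 2 * μ ^ k = μ ^ k * (μ - ((k + 1 : ℕ) : ℝ) ^ 2) := by
        rw [pow_succ]; ring
      rw [h14]
      have h15 : 1 ≤ μ - ((k + 1 : ℕ) : ℝ) ^ 2 := by nlinarith
      nlinarith
    nlinarith
  have h16 : (x:ℝ) / q ≤ N0 := by
    rw [hN0]
    gcongr
    linarith
  have h17 : ∑ n ∈ NN s1 ((1:ℕ).primeFactors \ s1) 0 1 x u, ((XX B 0 1 n).descFactorial r : ℝ)
      ≤ ∑ n ∈ Icc 1 x, ((XX B 0 1 n).descFactorial r : ℝ) := by
    apply Finset.sum_le_sum_of_subset_of_nonneg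
    · intro n hn
      unfold NN at hn
      rw [mem_filter, mem_Ioc] at hn
      rw [mem_Icc]
      omega
    · intro n _ _
      positivity
  have h18 : ∑ n ∈ Icc 1 x, ((XX B 0 1 n).descFactorial r : ℝ)
      = ∑ b ∈ injTuples r B, (tcount (shift 0 1 b) x : ℝ) := by
    exact_mod_cast sum_desc_eq B 0 1 r x
  linarith

lemma sq_le_four_two_pow (n : ℕ) : n ^ 2 ≤ 4 * 2 ^ n := by
  induction n with
  | zero => simp
  | succ n ih =>
    rcases Nat.lt_or_ge n 3 with h | h
    · interval_cases n <;> norm_num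
    · have : (n + 1) ^ 2 ≤ 2 * n ^ 2 := by nlinarith
      rw [pow_succ 2 n]
      omega

/-- Few exponents have `g ^ k` close to `x`. -/
lemma few_large (g : ℕ) (hg : 2 ≤ g) {ξ κ : ℝ} (hξ : 0 < ξ) (hκ : 0 < κ) :
    ∀ᶠ x : ℕ in atTop, ∀ E : Finset ℕ, (∀ k ∈ E, g ^ k ≤ x) →
      ((E.filter (fun k => ¬ (1 ≤ k ∧ ((g ^ k : ℕ) : ℝ) * Real.log x ≤ ξ * x))).card : ℝ)
        ≤ κ / 2 * Real.log x := by
  classical
  have hlog := Real.tendsto_log_atTop.comp (tendsto_natCast_atTop_atTop (R := ℝ))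
  filter_upwards [hlog.eventually_ge_atTop ((2 + 4 / (κ * ξ)) / (κ / 4)), hlog.eventually_gt_atTop 0,
    eventually_ge_atTop 1] with x hx1 hx2 hx3 E hE
  simp only [Function.comp] at hx1 hx2
  set Λ := Real.log x with hΛ
  have hx0 : (0:ℝ) < x := by exact_mod_cast hx3
  rw [div_le_iff₀ (by positivity)] at hx1
  set F := E.filter (fun k => ¬ (1 ≤ k ∧ ((g ^ k : ℕ) : ℝ) * Λ ≤ ξ * x)) with hF
  set F2 := E.filter (fun k => ξ * x < ((g ^ k : ℕ) : ℝ) * Λ) with hF2
  have hsub : F ⊆ {0} ∪ F2 := by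
    intro k hk
    rw [hF, mem_filter] at hk
    rw [mem_union, mem_singleton]
    by_cases h0 : k = 0
    · left; exact h0
    · right
      rw [hF2, mem_filter]
      refine ⟨hk.1, ?_⟩
      by_contra hcon
      push Not at hcon
      exact hk.2 ⟨by omega, hcon⟩
  have hcard1 : (F.card : ℝ) ≤ 1 + F2.card := by
    have h2 := (Finset.card_le_card hsub).trans (Finset.card_union_le _ _)
    rw [card_singleton] at h2
    exact_mod_cast h2
  have hcard2 : (F2.card : ℝ) ≤ 1 + 2 * Real.sqrt (Λ / ξ) := by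
    rcases F2.eq_empty_or_nonempty with h | h
    · rw [h]
      have := Real.sqrt_nonneg (Λ / ξ)
      simp only [Finset.card_empty, Nat.cast_zero]
      linarith
    · set k0 := F2.min' h with hk0
      set k1 := F2.max' h with hk1
      have hk0m : k0 ∈ F2 := F2.min'_mem h
      have hk1m : k1 ∈ F2 := F2.max'_mem h
      have hle : k0 ≤ k1 := F2.min'_le _ hk1m
      have hsub2 : F2 ⊆ Icc k0 k1 := fun k hk => mem_Icc.mpr ⟨F2.min'_le _ hk, F2.le_max' _ hk⟩
      have hc := Finset.card_le_card hsub2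
      rw [Nat.card_Icc] at hc
      set n := k1 - k0 with hn
      have hk1e : k1 = k0 + n := by omega
      have h2n : (2:ℝ) ^ n ≤ Λ / ξ := by
        rw [le_div_iff₀ hξ]
        have h3 : ξ * x < ((g ^ k0 : ℕ) : ℝ) * Λ := (mem_filter.mp hk0m).2
        have h4 : ((g ^ k1 : ℕ) : ℝ) ≤ x := by exact_mod_cast hE k1 (mem_filter.mp hk1m).1
        rw [hk1e, pow_add] at h4
        push_cast at h3 h4
        have h5 : (2:ℝ) ^ n ≤ (g:ℝ) ^ n := by
          gcongr
          exact_mod_cast hg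
        have h6 : (0:ℝ) < (g:ℝ) ^ k0 := by
          have : (0:ℝ) < g := by
            have : 0 < g := by omega
            exact_mod_cast this
          positivity
        have h7 : (g:ℝ) ^ k0 * (2:ℝ) ^ n ≤ x := le_trans (by gcongr) h4
        have h8 : (2:ℝ) ^ n * ξ * x ≤ Λ * x := by
          calc (2:ℝ) ^ n * ξ * x = (2:ℝ) ^ n * (ξ * x) := by ring
            _ ≤ (2:ℝ) ^ n * ((g:ℝ) ^ k0 * Λ) := by gcongr
            _ = ((g:ℝ) ^ k0 * (2:ℝ) ^ n) * Λ := by ring
            _ ≤ x * Λ := by gcongr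
            _ = Λ * x := by ring
        exact le_of_mul_le_mul_right h8 hx0
      have h9 : (n:ℝ) ^ 2 ≤ 4 * (Λ / ξ) := by
        have h10 : (n:ℝ) ^ 2 ≤ 4 * 2 ^ n := by exact_mod_cast sq_le_four_two_pow n
        linarith
      have h11 : (n:ℝ) ≤ 2 * Real.sqrt (Λ / ξ) := by
        apply le_of_sq_le_sq _ (by positivity)
        rw [mul_pow, Real.sq_sqrt (by positivity)]
        linarith
      have h12 : (F2.card : ℝ) ≤ n + 1 := by
        have : F2.card ≤ n + 1 := by omega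
        exact_mod_cast this
      linarith
  have h13 : 2 * Real.sqrt (Λ / ξ) ≤ κ / 4 * Λ + 4 / (κ * ξ) := by
    set a := Real.sqrt (Λ / ξ) with ha
    have ha2 : a ^ 2 = Λ / ξ := Real.sq_sqrt (by positivity)
    have hΛe : Λ = a ^ 2 * ξ := by rw [ha2]; field_simp
    rw [hΛe]
    have h14 : κ / 4 * (a ^ 2 * ξ) + 4 / (κ * ξ) - 2 * a = (κ * ξ * a - 4) ^ 2 / (4 * (κ * ξ)) := by
      field_simp
      ring
    have h15 : 0 ≤ (κ * ξ * a - 4) ^ 2 / (4 * (κ * ξ)) := by positivity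
    linarith
  linarith

/-- Sums over injective tuples from an image. -/
lemma sum_injTuples_image {r : ℕ} (E : Finset ℕ) (f : ℕ → ℕ) (hf : Function.Injective f)
    (F : (Fin r → ℕ) → ℝ) :
    ∑ b ∈ injTuples r (E.image f), F b = ∑ k ∈ injTuples r E, F (fun i => f (k i)) := by
  classical
  symm
  refine Finset.sum_bij (fun k _ => fun i => f (k i)) ?_ ?_ ?_ ?_
  · intro k hk
    rw [mem_injTuples] at hk
    rw [mem_injTuples]
    exact ⟨fun i => mem_image_of_mem _ (hk.1 i), hf.comp hk.2⟩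
  · intro k _ l _ h
    funext i
    exact hf (congrFun h i)
  · intro b hb
    rw [mem_injTuples] at hb
    have hch : ∀ i, ∃ k ∈ E, f k = b i := fun i => mem_image.mp (hb.1 i)
    choose k hkE hk using hch
    refine ⟨k, ?_, ?_⟩
    · rw [mem_injTuples]
      refine ⟨hkE, fun i j hij => hb.2 ?_⟩
      rw [← hk i, ← hk j, hij]
    · funext i
      exact hk i
  · intro k _
    rfl

end Pool.Agent.HL2
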