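import Pool.Agent.Lib.HL2.ExpLower

/-!
# A positive proportion of tuples of exponential shifts has the Hardy-Littlewood order of magnitude
-/

set_option autoImplicit false

open Finset Filter Topology

namespace Pool.Agent.HL2

open Pool.Agent.Lib.Sieve4 Pool.Agent.HL

/-- The tuple of shifts `g ^ (k i)`. -/
def pshift {r : ℕ} (g : ℕ) (k : Fin r → ℕ) : Fin r → ℤ := shift 0 1 (fun i => g ^ (k i))

lemma adm_pshift {r : ℕ} (g : ℕ) (hg : 2 ≤ g) (k : Fin r → ℕ) (hk : ∀ i, 1 ≤ k i) :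
    Adm (pshift g k) := by
  classical
  intro p hp
  have : Fact p.Prime := ⟨hp⟩
  unfold nu pshift shift
  by_cases hpg : p ∣ g
  · have h1 : (univ.image (fun i : Fin r => (((0 + 1 * g ^ k i : ℕ) : ℤ) : ZMod p))) ⊆ {0} := by
      intro y hy
      rw [mem_image] at hy
      obtain ⟨i, _, rfl⟩ := hy
      rw [mem_singleton]
      have h2 : ((g ^ k i : ℕ) : ZMod p) = 0 :=
        (ZMod.natCast_eq_zero_iff _ p).mpr (hpg.trans (dvd_pow_self g (by have := hk i; omega)))
      push_cast at h2 ⊢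
      simpa using h2
    have h3 := Finset.card_le_card h1
    rw [card_singleton] at h3
    exact lt_of_le_of_lt h3 hp.one_lt
  · have h1 : (univ.image (fun i : Fin r => (((0 + 1 * g ^ k i : ℕ) : ℤ) : ZMod p)))
        ⊆ (univ : Finset (ZMod p)).erase 0 := by
      intro y hy
      rw [mem_image] at hy
      obtain ⟨i, _, rfl⟩ := hy
      rw [mem_erase]
      refine ⟨?_, mem_univ _⟩
      have h2 : ((g : ℕ) : ZMod p) ≠ 0 := by
        rw [Ne, ZMod.natCast_eq_zero_iff]
        exact hpg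
      have h3 : ((g : ℕ) : ZMod p) ^ (k i) ≠ 0 := pow_ne_zero _ h2
      push_cast
      simpa using h3
    have h4 := Finset.card_le_card h1
    rw [Finset.card_erase_of_mem (mem_univ _), Finset.card_univ, ZMod.card] at h4
    exact lt_of_le_of_lt h4 (Nat.sub_lt hp.pos one_pos)

/-- A class allowed for all powers. -/
lemma exists_class (g z : ℕ) (E : Finset ℕ) (hE : ∀ k ∈ E, 1 ≤ k) :
    ∃ u : ℕ, goodB (Nat.primesLE z) (E.image (fun k => g ^ k)) 0 1 u = E.image (fun k => g ^ k) := by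
  classical
  set P := (Nat.primesLE z).filter (fun p => ¬ p ∣ g) with hP
  refine ⟨∏ p ∈ P, p, ?_⟩
  unfold goodB
  rw [Finset.filter_eq_self]
  intro b hb p hp
  rw [mem_image] at hb
  obtain ⟨k, hk, rfl⟩ := hb
  have hpp : p.Prime := (Nat.mem_primesLE.1 hp).2
  rw [zero_add, one_mul]
  by_cases hpg : p ∣ g
  · intro h
    have h1 : p ∣ g ^ k := hpg.trans (dvd_pow_self g (by have := hE k hk; omega))
    have h2 : p ∣ ∏ p ∈ P, p := (Nat.dvd_add_left h1).mp h
    obtain ⟨q, hq, hpq⟩ := (Prime.dvd_finsetProd_iff hpp.prime _).mp h2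
    rw [hP, mem_filter] at hq
    have h3 : p = q := (Nat.prime_dvd_prime_iff_eq hpp (Nat.mem_primesLE.1 hq.1).2).mp hpq
    rw [h3] at hpg
    exact hq.2 hpg
  · intro h
    have h1 : p ∣ ∏ p ∈ P, p := Finset.dvd_prod_of_mem _ (mem_filter.mpr ⟨hp, hpg⟩)
    have h2 : p ∣ g ^ k := (Nat.dvd_add_right h1).mp h
    exact hpg (hpp.dvd_of_dvd_pow h2)

lemma exists_z {C : ℝ} : ∃ z : ℕ, C * ∏ p ∈ Nat.primesLE z, ((p:ℝ) - 1) ≤ ∏ p ∈ Nat.primesLE z, (p:ℝ) := by
  obtain ⟨z, hz⟩ := exists_nat_gt (Real.exp (max C 1))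
  have hz0 : (0:ℝ) < z := (Real.exp_pos _).trans hz
  have hz1 : 1 ≤ z := by
    have : 0 < z := by exact_mod_cast hz0
    omega
  refine ⟨z, ?_⟩
  have h1 := prod_one_sub_inv_le z hz1
  have hlog : max C 1 ≤ Real.log (z + 1) := by
    rw [Real.le_log_iff_exp_le (by positivity)]
    linarith
  have hpos : ∀ p ∈ Nat.primesLE z, (0:ℝ) < p := fun p hp => by
    exact_mod_cast (Nat.mem_primesLE.1 hp).2.pos
  have h2 : ∏ p ∈ Nat.primesLE z, ((p:ℝ) - 1)
      = (∏ p ∈ Nat.primesLE z, (1 - 1 / (p:ℝ))) * ∏ p ∈ Nat.primesLE z, (p:ℝ) := by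
    rw [← Finset.prod_mul_distrib]
    refine Finset.prod_congr rfl fun p hp => ?_
    have := (hpos p hp).ne'
    field_simp
  have hP0 : 0 < ∏ p ∈ Nat.primesLE z, (p:ℝ) := Finset.prod_pos hpos
  have h3 : 0 ≤ ∏ p ∈ Nat.primesLE z, (1 - 1 / (p:ℝ)) := Finset.prod_nonneg fun p hp =>
    (one_sub_inv_pos (Nat.mem_primesLE.1 hp).2).le
  rw [h2]
  have hm1 : 1 ≤ max C 1 := le_max_right _ _
  have hlog0 : 0 < Real.log (z + 1) := by linarith
  calc C * ((∏ p ∈ Nat.primesLE z, (1 - 1 / (p:ℝ))) * ∏ p ∈ Nat.primesLE z, (p:ℝ))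
      ≤ max C 1 * ((∏ p ∈ Nat.primesLE z, (1 - 1 / (p:ℝ))) * ∏ p ∈ Nat.primesLE z, (p:ℝ)) := by
        apply mul_le_mul_of_nonneg_right (le_max_left _ _) (by positivity)
    _ ≤ Real.log (z + 1) * ((1 / Real.log (z + 1)) * ∏ p ∈ Nat.primesLE z, (p:ℝ)) := by gcongr
    _ = ∏ p ∈ Nat.primesLE z, (p:ℝ) := by field_simp

set_option maxHeartbeats 4000000 in
theorem exp_positive_proportion (g : ℕ) (hg : 2 ≤ g) (r : ℕ) (hr : 2 ≤ r) {κ : ℝ} (hκ : 0 < κ) :
    ∃ c δ : ℝ, 0 < c ∧ 0 < δ ∧ ∀ᶠ x : ℕ in atTop, ∀ E : Finset ℕ, (∀ k ∈ E, g ^ k ≤ x) →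
      κ * Real.log x ≤ E.card →
      ∃ G ⊆ injTuples r E, δ * Real.log x ^ r ≤ G.card ∧ ∀ k ∈ G, (∀ i, 1 ≤ k i) ∧
        c * SS (pshift g k) * (x / Real.log x ^ r) ≤ tcount (pshift g k) x := by
  classical
  have hr1 : 1 ≤ r := by omega
  obtain ⟨K, hK, hKup⟩ := tuple_upper r hr1
  obtain ⟨M, hM0, hM⟩ := pair_avg_pow g hg ((r - 1) * 2 * (r * (r - 1)))
  set M2 : ℝ := M * (4 / κ) with hM2
  have hM20 : 0 < M2 := by positivity
  obtain ⟨z, hz⟩ := exists_z (C := 12 * (r:ℝ) ^ 2 / κ)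
  have hs1 : ∀ p ∈ Nat.primesLE z, p.Prime := fun p hp => (Nat.mem_primesLE.1 hp).2
  set q : ℝ := ∏ p ∈ Nat.primesLE z, (p:ℝ) with hq
  have hq0 : 0 < q := Finset.prod_pos fun p hp => by exact_mod_cast (hs1 p hp).pos
  obtain ⟨ξ, hξ, hlow⟩ := lower_class r hr1 (Nat.primesLE z) hs1
  set c : ℝ := 1 / (2 * q * M2 * 2 ^ r) with hc
  have hc0 : 0 < c := by positivity
  set t : ℝ := 1 / (2 * q * K * M2 * 2 ^ r) with ht
  have ht0 : 0 < t := by positivity
  set δ : ℝ := t / (2 * q * K) with hδ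
  have hδ0 : 0 < δ := by positivity
  refine ⟨c, δ, hc0, hδ0, ?_⟩
  have hfew := few_large g hg hξ hκ
  filter_upwards [hlow, hfew, eventually_ge_atTop 3] with x hx1 hx2 hx3 E hEx hEcard
  have hx0 : (0:ℝ) < x := by
    have : 0 < x := by omega
    exact_mod_cast this
  have hx1' : (1:ℝ) < x := by
    have : 1 < x := by omega
    exact_mod_cast this
  have hlog : 0 < Real.log x := Real.log_pos hx1'
  set Λ := Real.log x with hΛ
  set E' := E.filter (fun k => (1 ≤ k ∧ ((g ^ k : ℕ) : ℝ) * Λ ≤ ξ * x)) with hE'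
  have hE'card : κ / 2 * Λ ≤ E'.card := by
    have h1 := hx2 E hEx
    have h2 : (E.card : ℝ) = E'.card + (E.filter (fun k => ¬ (1 ≤ k ∧ ((g ^ k : ℕ) : ℝ) * Λ ≤ ξ * x))).card := by
      have := Finset.card_filter_add_card_filter_not (s := E)
        (fun k => (1 ≤ k ∧ ((g ^ k : ℕ) : ℝ) * Λ ≤ ξ * x))
      rw [hE']
      exact_mod_cast this.symm
    linarith
  set L := Nat.log 2 x with hL
  have hE'L : E' ⊆ Icc 1 L := by
    intro k hk
    rw [hE', mem_filter] at hk
    rw [mem_Icc]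
    refine ⟨hk.2.1, ?_⟩
    have h1 : 2 ^ k ≤ x := (Nat.pow_le_pow_left hg k).trans (hEx k hk.1)
    exact (Nat.le_log_iff_pow_le (by norm_num) (by omega)).mpr h1
  have hL2 : (L:ℝ) ≤ 2 * Λ := by
    have h1 : 2 ^ L ≤ x := Nat.pow_log_le_self 2 (by omega)
    have h2 : (2:ℝ) ^ L ≤ x := by exact_mod_cast h1
    have h3 : (L:ℝ) * Real.log 2 ≤ Λ := by
      rw [← Real.log_pow]
      exact Real.log_le_log (by positivity) h2
    have hl2 : (1:ℝ)/2 < Real.log 2 := by linarith [Real.log_two_gt_d9]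
    have h4 : (0:ℝ) ≤ L := Nat.cast_nonneg L
    nlinarith
  have hE'cardL : (E'.card : ℝ) ≤ 2 * Λ := by
    have h1 := Finset.card_le_card hE'L
    rw [Nat.card_Icc, Nat.add_sub_cancel] at h1
    have h2 : (E'.card : ℝ) ≤ L := by exact_mod_cast h1
    linarith
  have hinj : Function.Injective (fun k => g ^ k) := Nat.pow_right_injective hg
  set B := E'.image (fun k => g ^ k) with hB
  have hBcard : B.card = E'.card := Finset.card_image_of_injective _ hinj
  -- lower bound
  obtain ⟨u, hu⟩ := exists_class g z E' (fun k hk => (mem_filter.mp hk).2.1)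
  have hlower := hx1 B u hu (by
    intro b hb
    rw [hB, mem_image] at hb
    obtain ⟨k, hk, rfl⟩ := hb
    exact (mem_filter.mp hk).2.2) (by
    rw [hBcard]
    have h1 : (12 * (r:ℝ) ^ 2 / κ) * (∏ p ∈ Nat.primesLE z, ((p:ℝ) - 1)) * (κ / 2 * Λ)
        ≤ q * (κ / 2 * Λ) := by
      apply mul_le_mul_of_nonneg_right hz (by positivity)
    calc 6 * (r:ℝ) ^ 2 * Λ * (∏ p ∈ Nat.primesLE z, ((p:ℝ) - 1))
        = (12 * (r:ℝ) ^ 2 / κ) * (∏ p ∈ Nat.primesLE z, ((p:ℝ) - 1)) * (κ / 2 * Λ) := by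
          field_simp
          ring
      _ ≤ q * (κ / 2 * Λ) := h1
      _ ≤ q * E'.card := by gcongr
      _ = E'.card * q := by ring)
  set Y : ℝ := x / Λ ^ r with hY
  have hY0 : 0 < Y := by positivity
  set T := injTuples r B with hT
  have hBx : B ⊆ Icc 1 x := by
    intro b hb
    rw [hB, mem_image] at hb
    obtain ⟨k, hk, rfl⟩ := hb
    rw [mem_Icc]
    exact ⟨Nat.one_le_pow _ _ (by omega), hEx k (mem_filter.mp hk).1⟩
  have hTx : T ⊆ injTuples r (Icc 1 x) := injTuples_mono hBx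
  have hTinj : ∀ b ∈ T, Function.Injective (shift 0 1 b) := fun b hb =>
    shift_injective 0 1 (by norm_num) b (mem_injTuples.mp hb).2
  have hSS0 : ∀ b ∈ T, 0 ≤ SS (shift 0 1 b) := fun b hb => SS_nonneg _ (hasProd_SS _ (hTinj b hb))
  have hSSP : ∀ b ∈ T, SS (shift 0 1 b) ≤ PP b 1 x := by
    intro b hb
    have h1 := SS_le' hr1 0 1 x (by norm_num) b (hTx hb) (hasProd_SS _ (hTinj b hb))
    have h2 : DD1 1 = 1 := by
      unfold DD1
      rw [Nat.primeFactors_one]
      simp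
    rw [h2, inv_one, one_pow, one_mul] at h1
    exact h1
  have hAdm : ∀ b ∈ T, Adm (shift 0 1 b) := by
    intro b hb
    have hb' := mem_injTuples.mp hb
    have hch : ∀ i, ∃ k ∈ E', g ^ k = b i := fun i => mem_image.mp (hb'.1 i)
    choose k hkE hk using hch
    have h1 : b = fun i => g ^ (k i) := by funext i; exact (hk i).symm
    rw [h1]
    exact adm_pshift g hg k (fun i => (mem_filter.mp (hkE i)).2.1)
  have hup : ∀ b ∈ T, (tcount (shift 0 1 b) x : ℝ) ≤ K * SS (shift 0 1 b) * Y := by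
    intro b hb
    have h1 := hKup (shift 0 1 b) (hAdm b hb) (SS (shift 0 1 b)) (hasProd_SS _ (hTinj b hb)) x (by omega)
    have h2 : K * SS (shift 0 1 b) * x / Λ ^ r = K * SS (shift 0 1 b) * Y := by
      rw [hY]; ring
    rw [← h2]
    exact h1
  have hPPsum : ∑ b ∈ T, PP b 1 x ^ 2 ≤ M2 * 2 ^ r * Λ ^ r := by
    have h1 := avg_badPrimes' hr ((r-1)*2) 1 x B (M := M2) (by
      have h2 := hM x L E' hE'L
      refine h2.trans ?_
      rw [hM2, hBcard]
      have h3 : (L:ℝ) ≤ (4 / κ) * E'.card := by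
        calc (L:ℝ) ≤ 2 * Λ := hL2
          _ = (4 / κ) * (κ / 2 * Λ) := by field_simp; ring
          _ ≤ (4 / κ) * E'.card := by gcongr
      calc M * L * E'.card ≤ M * ((4 / κ) * E'.card) * E'.card := by gcongr
        _ = _ := by ring)
    simp_rw [PP_sq]
    refine h1.trans ?_
    rw [hBcard]
    calc M2 * (E'.card : ℝ) ^ r ≤ M2 * (2 * Λ) ^ r := by gcongr
      _ = _ := by rw [mul_pow]; ring
  have hPP1 : ∀ b : Fin r → ℕ, PP b 1 x ≤ PP b 1 x ^ 2 := by
    intro b
    have := one_le_PP b 1 x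
    nlinarith
  set GB := T.filter (fun b => c * SS (shift 0 1 b) * Y ≤ tcount (shift 0 1 b) x) with hGB
  -- the lower bound for the size of GB
  have hGBcard : δ * Λ ^ r ≤ GB.card := by
    by_contra hcon
    push Not at hcon
    have hT1 : ∑ b ∈ T \ GB, (tcount (shift 0 1 b) x : ℝ) ≤ x / (2 * q) := by
      calc ∑ b ∈ T \ GB, (tcount (shift 0 1 b) x : ℝ)
          ≤ ∑ b ∈ T \ GB, c * Y * PP b 1 x ^ 2 := by
            refine Finset.sum_le_sum fun b hb => ?_
            rw [Finset.mem_sdiff] at hb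
            have h1 : ¬ (c * SS (shift 0 1 b) * Y ≤ tcount (shift 0 1 b) x) := by
              intro h
              exact hb.2 (mem_filter.mpr ⟨hb.1, h⟩)
            push Not at h1
            refine h1.le.trans ?_
            have h2 := hSSP b hb.1
            have h3 := hPP1 b
            calc c * SS (shift 0 1 b) * Y ≤ c * (PP b 1 x ^ 2) * Y := by
                  gcongr
                  linarith
              _ = _ := by ring
        _ ≤ ∑ b ∈ T, c * Y * PP b 1 x ^ 2 :=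
            Finset.sum_le_sum_of_subset_of_nonneg Finset.sdiff_subset fun _ _ _ => by positivity
        _ = c * Y * ∑ b ∈ T, PP b 1 x ^ 2 := by rw [Finset.mul_sum]
        _ ≤ c * Y * (M2 * 2 ^ r * Λ ^ r) := by gcongr
        _ = x / (2 * q) := by
            rw [hc, hY]
            field_simp
    have hG1 : ∑ b ∈ GB, (tcount (shift 0 1 b) x : ℝ) < x / (2 * q) := by
      have h2 : ∀ b ∈ GB, (tcount (shift 0 1 b) x : ℝ) ≤ K * Y * (t / 2 * PP b 1 x ^ 2 + 1 / (2 * t)) := by
        intro b hb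
        have hbT := (mem_filter.mp hb).1
        have h3 : PP b 1 x ≤ t / 2 * PP b 1 x ^ 2 + 1 / (2 * t) := by
          have h4 : t / 2 * PP b 1 x ^ 2 + 1 / (2 * t) - PP b 1 x
              = (t * PP b 1 x - 1) ^ 2 / (2 * t) := by
            field_simp
            ring
          have h5 : 0 ≤ (t * PP b 1 x - 1) ^ 2 / (2 * t) := by positivity
          linarith
        calc (tcount (shift 0 1 b) x : ℝ) ≤ K * SS (shift 0 1 b) * Y := hup b hbT
          _ ≤ K * (t / 2 * PP b 1 x ^ 2 + 1 / (2 * t)) * Y := by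
              have h6 := hSSP b hbT
              gcongr
              linarith
          _ = _ := by ring
      have h7 := Finset.sum_le_sum h2
      rw [← Finset.mul_sum, Finset.sum_add_distrib, ← Finset.mul_sum, Finset.sum_const,
        nsmul_eq_mul] at h7
      have h8 : ∑ b ∈ GB, PP b 1 x ^ 2 ≤ M2 * 2 ^ r * Λ ^ r := by
        refine le_trans ?_ hPPsum
        exact Finset.sum_le_sum_of_subset_of_nonneg (filter_subset _ _) fun _ _ _ => by positivity
      calc ∑ b ∈ GB, (tcount (shift 0 1 b) x : ℝ)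
          ≤ K * Y * (t / 2 * ∑ b ∈ GB, PP b 1 x ^ 2 + GB.card * (1 / (2 * t))) := h7
        _ < K * Y * (t / 2 * (M2 * 2 ^ r * Λ ^ r) + (δ * Λ ^ r) * (1 / (2 * t))) := by
            apply mul_lt_mul_of_pos_left _ (by positivity)
            apply add_lt_add_of_le_of_lt
            · gcongr
            · apply mul_lt_mul_of_pos_right hcon (by positivity)
        _ = x / (2 * q) := by
            have e1 : K * Y * (t / 2 * (M2 * 2 ^ r * Λ ^ r)) = x / (4 * q) := by
              rw [ht, hY]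
              field_simp
              ring
            have e2 : K * Y * ((δ * Λ ^ r) * (1 / (2 * t))) = x / (4 * q) := by
              rw [hδ, hY]
              field_simp
              ring
            rw [mul_add, e1, e2]
            field_simp
            ring
    have h9 : ∑ b ∈ T, (tcount (shift 0 1 b) x : ℝ)
        = ∑ b ∈ T \ GB, (tcount (shift 0 1 b) x : ℝ) + ∑ b ∈ GB, (tcount (shift 0 1 b) x : ℝ) :=
      (Finset.sum_sdiff (filter_subset _ _)).symm
    rw [h9] at hlower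
    have h10 : x / q = x / (2 * q) + x / (2 * q) := by
      field_simp
      ring
    linarith
  -- transfer to exponents
  refine ⟨(injTuples r E').filter (fun k => c * SS (pshift g k) * Y ≤ tcount (pshift g k) x), ?_, ?_, ?_⟩
  · exact (filter_subset _ _).trans (injTuples_mono (filter_subset _ _))
  · refine hGBcard.trans ?_
    have hsub : GB ⊆ ((injTuples r E').filter (fun k => c * SS (pshift g k) * Y ≤
        tcount (pshift g k) x)).image (fun k => fun i => g ^ (k i)) := by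
      intro b hb
      rw [hGB, mem_filter] at hb
      have hb' := mem_injTuples.mp hb.1
      have hch : ∀ i, ∃ k ∈ E', g ^ k = b i := fun i => mem_image.mp (hb'.1 i)
      choose k hkE hk using hch
      have h1 : (fun i => g ^ (k i)) = b := by funext i; exact hk i
      rw [mem_image]
      refine ⟨k, ?_, h1⟩
      rw [mem_filter, mem_injTuples]
      refine ⟨⟨hkE, fun i j hij => hb'.2 ?_⟩, ?_⟩
      · rw [← hk i, ← hk j, hij]
      · unfold pshift
        rw [h1]
        exact hb.2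
    have h2 := (Finset.card_le_card hsub).trans Finset.card_image_le
    exact_mod_cast h2
  · intro k hk
    rw [mem_filter, mem_injTuples] at hk
    exact ⟨fun i => (mem_filter.mp (hk.1.1 i)).2.1, hk.2⟩

end Pool.Agent.HL2
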