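import Pool.Agent.Lib.HL2.Romanoff

/-!
# Pair averages for exponential shifts `g ^ k`
-/

set_option autoImplicit false

open Finset

namespace Pool.Agent.HL2

open Pool.Agent.Lib.Sieve4 Pool.Agent.HL

lemma nd_comm (u v : ℕ) : nd u v = nd v u := by
  unfold nd; omega

lemma nd_pow {g k j : ℕ} (hg : 1 ≤ g) : nd (g ^ (k + j)) (g ^ k) = g ^ k * (g ^ j - 1) := by
  have h1 : 1 ≤ g ^ j := Nat.one_le_pow _ _ hg
  have h2 : g ^ (k + j) = g ^ k * (g ^ j - 1) + g ^ k := by
    rw [pow_add]
    obtain ⟨m, hm⟩ : ∃ m, g ^ j = m + 1 := ⟨g ^ j - 1, by omega⟩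
    rw [hm]
    simp
    ring
  unfold nd
  rw [h2]
  push_cast
  rw [add_sub_cancel_right]
  exact Int.natAbs_natCast (g ^ k * (g ^ j - 1))

/-- The value of `gd` at a difference of powers. -/
lemma gd_pow_le (g K H k j : ℕ) (hg : 2 ≤ g) :
    gd K 1 H (g ^ k * (g ^ j - 1)) ≤ (∏ p ∈ g.primeFactors, ww K p) *
      ∏ p ∈ (primesIoc 1 H).filter (fun p => p ∣ g ^ j - 1), ww K p := by
  classical
  have h1 : gd K 1 H (g ^ k * (g ^ j - 1)) =
      ∏ p ∈ (primesIoc 1 H).filter (fun p => p ∣ g ^ k * (g ^ j - 1)), ww K p := by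
    unfold gd
    rw [Finset.prod_filter]
  rw [h1]
  set s1 := g.primeFactors with hs1
  set s2 := (primesIoc 1 H).filter (fun p => p ∣ g ^ j - 1) with hs2
  have hp1 : ∀ p ∈ s1, p.Prime := fun p hp => Nat.prime_of_mem_primeFactors hp
  have hp2 : ∀ p ∈ s2, p.Prime := fun p hp => (mem_filter.mp (mem_filter.mp hp).1).2
  have hsub : (primesIoc 1 H).filter (fun p => p ∣ g ^ k * (g ^ j - 1)) ⊆ s1 ∪ s2 := by
    intro p hp
    rw [mem_filter] at hp
    have hpp : p.Prime := (mem_filter.mp hp.1).2
    rw [mem_union]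
    rcases (Nat.Prime.dvd_mul hpp).mp hp.2 with h | h
    · left
      rw [hs1, Nat.mem_primeFactors]
      exact ⟨hpp, hpp.dvd_of_dvd_pow h, by omega⟩
    · right
      rw [hs2, mem_filter]
      exact ⟨hp.1, h⟩
  have h2 : ∏ p ∈ (primesIoc 1 H).filter (fun p => p ∣ g ^ k * (g ^ j - 1)), ww K p
      ≤ ∏ p ∈ s1 ∪ s2, ww K p := by
    apply Finset.prod_le_prod_of_subset_of_one_le hsub
    · intro p hp
      have := one_le_ww K (mem_filter.mp (mem_filter.mp hp).1).2
      linarith
    · intro p hp _
      rcases mem_union.mp hp with h | h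
      · exact one_le_ww K (hp1 p h)
      · exact one_le_ww K (hp2 p h)
  refine h2.trans ?_
  have h3 : ∏ p ∈ s1 ∪ s2, ww K p = (∏ p ∈ s1, ww K p) * ∏ p ∈ s2 \ s1, ww K p := by
    rw [← Finset.prod_union Finset.disjoint_sdiff, Finset.union_sdiff_self_eq_union]
  rw [h3]
  apply mul_le_mul_of_nonneg_left
  · apply Finset.prod_le_prod_of_subset_of_one_le Finset.sdiff_subset
    · intro p hp
      have := one_le_ww K (hp2 p (mem_sdiff.mp hp).1)
      linarith
    · intro p hp _
      exact one_le_ww K (hp2 p hp)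
  · exact Finset.prod_nonneg fun p hp => by
      have := one_le_ww K (hp1 p hp)
      linarith

/-- The pair average for a set of powers of `g`. -/
lemma pair_avg_pow (g : ℕ) (hg : 2 ≤ g) (K : ℕ) : ∃ M : ℝ, 0 < M ∧ ∀ (H L : ℕ) (E : Finset ℕ),
    E ⊆ Icc 1 L →
    ∑ u ∈ E.image (fun k => g ^ k), ∑ v ∈ (E.image (fun k => g ^ k)).filter (fun v => v ≠ u),
      gd K 1 H (nd u v) ≤ M * L * E.card := by
  classical
  obtain ⟨M, hM0, hM⟩ := romanoff_avg g hg K
  set Cg := ∏ p ∈ g.primeFactors, ww K p with hCg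
  have hCg0 : 0 < Cg := Finset.prod_pos fun p hp => by
    have := one_le_ww K (Nat.prime_of_mem_primeFactors hp)
    linarith
  refine ⟨2 * Cg * M, by positivity, fun H L E hE => ?_⟩
  have hinj : Function.Injective (fun k => g ^ k) := Nat.pow_right_injective hg
  rw [Finset.sum_image fun a _ b _ h => hinj h]
  set f : ℕ → ℝ := fun j => ∏ p ∈ (primesIoc 1 H).filter (fun p => p ∣ g ^ j - 1), ww K p with hf
  have hf0 : ∀ j, 0 ≤ f j := fun j => Finset.prod_nonneg fun p hp => by
    have := one_le_ww K (mem_filter.mp (mem_filter.mp hp).1).2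
    linarith
  have hinner : ∀ k ∈ E, ∑ v ∈ (E.image (fun k => g ^ k)).filter (fun v => v ≠ g ^ k),
      gd K 1 H (nd (g ^ k) v) ≤ 2 * Cg * M * L := by
    intro k hk
    have e1 : (E.image (fun k => g ^ k)).filter (fun v => v ≠ g ^ k)
        = (E.filter (fun l => l ≠ k)).image (fun l => g ^ l) := by
      ext v
      simp only [mem_filter, mem_image]
      constructor
      · rintro ⟨⟨l, hl, rfl⟩, h2⟩
        exact ⟨l, ⟨hl, fun h => h2 (by rw [h])⟩, rfl⟩
      · rintro ⟨l, ⟨hl, h2⟩, rfl⟩
        exact ⟨⟨l, hl, rfl⟩, fun h => h2 (hinj h)⟩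
    rw [e1, Finset.sum_image fun a _ b _ h => hinj h]
    have hpt : ∀ l ∈ E.filter (fun l => l ≠ k), gd K 1 H (nd (g ^ k) (g ^ l))
        ≤ Cg * f ((k - l) + (l - k)) := by
      intro l hl
      rw [mem_filter] at hl
      rcases Nat.lt_or_ge l k with h | h
      · obtain ⟨j, rfl⟩ : ∃ j, k = l + j := ⟨k - l, by omega⟩
        rw [nd_pow (by omega)]
        have : (l + j - l) + (l - (l + j)) = j := by omega
        rw [this]
        exact gd_pow_le g K H l j hg
      · obtain ⟨j, rfl⟩ : ∃ j, l = k + j := ⟨l - k, by omega⟩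
        rw [nd_comm, nd_pow (by omega)]
        have : (k - (k + j)) + (k + j - k) = j := by omega
        rw [this]
        exact gd_pow_le g K H k j hg
    refine (Finset.sum_le_sum hpt).trans ?_
    rw [← Finset.mul_sum]
    have hkL := mem_Icc.mp (hE hk)
    have h2 : ∑ l ∈ E.filter (fun l => l ≠ k), f ((k - l) + (l - k))
        ≤ ∑ l ∈ (Icc 1 L).filter (fun l => l ≠ k), f ((k - l) + (l - k)) := by
      apply Finset.sum_le_sum_of_subset_of_nonneg
      · exact Finset.filter_subset_filter _ hE
      · exact fun l _ _ => hf0 _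
    have h3 : ∑ l ∈ (Icc 1 L).filter (fun l => l ≠ k), f ((k - l) + (l - k))
        ≤ 2 * ∑ j ∈ Icc 1 L, f j := by
      rw [← Finset.sum_filter_add_sum_filter_not ((Icc 1 L).filter (fun l => l ≠ k)) (fun l => l < k)]
      have h4 : ∑ l ∈ ((Icc 1 L).filter (fun l => l ≠ k)).filter (fun l => l < k),
          f ((k - l) + (l - k)) ≤ ∑ j ∈ Icc 1 L, f j := by
        have e2 : ∑ l ∈ ((Icc 1 L).filter (fun l => l ≠ k)).filter (fun l => l < k),
            f ((k - l) + (l - k)) = ∑ j ∈ (((Icc 1 L).filter (fun l => l ≠ k)).filter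
              (fun l => l < k)).image (fun l => k - l), f j := by
          rw [Finset.sum_image]
          · refine Finset.sum_congr rfl fun l hl => ?_
            rw [mem_filter] at hl
            congr 1
            omega
          · intro a ha b hb hab
            simp only [Finset.coe_filter, Set.mem_setOf_eq] at ha hb
            simp only at hab
            omega
        rw [e2]
        apply Finset.sum_le_sum_of_subset_of_nonneg
        · intro j hj
          rw [mem_image] at hj
          obtain ⟨l, hl, rfl⟩ := hj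
          rw [mem_filter, mem_filter, mem_Icc] at hl
          rw [mem_Icc]
          omega
        · exact fun j _ _ => hf0 j
      have h5 : ∑ l ∈ ((Icc 1 L).filter (fun l => l ≠ k)).filter (fun l => ¬ l < k),
          f ((k - l) + (l - k)) ≤ ∑ j ∈ Icc 1 L, f j := by
        have e2 : ∑ l ∈ ((Icc 1 L).filter (fun l => l ≠ k)).filter (fun l => ¬ l < k),
            f ((k - l) + (l - k)) = ∑ j ∈ (((Icc 1 L).filter (fun l => l ≠ k)).filter
              (fun l => ¬ l < k)).image (fun l => l - k), f j := by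
          rw [Finset.sum_image]
          · refine Finset.sum_congr rfl fun l hl => ?_
            rw [mem_filter] at hl
            congr 1
            omega
          · intro a ha b hb hab
            simp only [Finset.coe_filter, Set.mem_setOf_eq] at ha hb
            simp only at hab
            omega
        rw [e2]
        apply Finset.sum_le_sum_of_subset_of_nonneg
        · intro j hj
          rw [mem_image] at hj
          obtain ⟨l, hl, rfl⟩ := hj
          rw [mem_filter, mem_filter, mem_Icc] at hl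
          rw [mem_Icc]
          omega
        · exact fun j _ _ => hf0 j
      linarith
    have h6 := hM H L
    calc Cg * ∑ l ∈ E.filter (fun l => l ≠ k), f ((k - l) + (l - k))
        ≤ Cg * (2 * (M * L)) := by
          apply mul_le_mul_of_nonneg_left _ hCg0.le
          linarith
      _ = 2 * Cg * M * L := by ring
  calc ∑ k ∈ E, ∑ v ∈ (E.image (fun k => g ^ k)).filter (fun v => v ≠ g ^ k),
        gd K 1 H (nd (g ^ k) v) ≤ ∑ _k ∈ E, 2 * Cg * M * L := Finset.sum_le_sum hinner
    _ = 2 * Cg * M * L * E.card := by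
        rw [Finset.sum_const, nsmul_eq_mul]; ring

end Pool.Agent.HL2
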