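import Pool.Agent.Lib.HL2.PairAvg

/-!
# The positive proportion theorem for general finite sets of shifts
-/

set_option autoImplicit false

open Finset Filter Topology

namespace Pool.Agent.HL2

open Pool.Agent.Lib.Sieve4 Pool.Agent.HL

/-- The average over tuples from a general set of the product over bad primes minus one, given the
average over pairs. -/
theorem avg_badPrimes_sub_one {r : ℕ} (hr : 2 ≤ r) (k z H : ℕ) (T : Finset ℕ) {M : ℝ}
    (hM : ∑ u ∈ T, ∑ v ∈ T.filter (fun v => v ≠ u), (gd (k * (r * (r - 1))) z H (nd u v) - 1)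
      ≤ M * (T.card : ℝ) ^ 2) :
    ∑ b ∈ injTuples r T, ((∏ p ∈ badPrimes b z H, ww k p) - 1) ≤ M * (T.card : ℝ) ^ r := by
  classical
  set s : Finset (Fin r × Fin r) := univ.filter (fun w => w.1 ≠ w.2) with hs
  set N := s.card with hN
  have hNval : N = r * (r - 1) := by
    have : s = (univ : Finset (Fin r)).offDiag := by
      ext w; simp [hs]
    rw [hN, this, Finset.offDiag_card, Finset.card_univ, Fintype.card_fin, Nat.mul_sub_one]
  rw [← hNval] at hM
  have hNpos : 0 < N := by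
    rw [hNval]
    exact Nat.mul_pos (by omega) (by omega)
  have hN0 : (0:ℝ) < N := by exact_mod_cast hNpos
  -- pointwise bound
  have hpt : ∀ b : Fin r → ℕ, (∏ p ∈ badPrimes b z H, ww k p) - 1
      ≤ ∑ w ∈ s, (1 / (N:ℝ)) * (gd (k * N) z H (nd (b w.1) (b w.2)) - 1) := by
    intro b
    have h1 : ∏ p ∈ badPrimes b z H, ww k p ≤ ∏ w ∈ s, gd k z H (nd (b w.1) (b w.2)) := by
      unfold gd
      rw [Finset.prod_comm]
      have e1 : ∏ p ∈ badPrimes b z H, ww k p
          = ∏ p ∈ primesIoc z H, (if p ∈ badPrimes b z H then ww k p else 1) := by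
        rw [Finset.prod_ite_mem]
        congr 1
        unfold badPrimes
        ext p
        simp
      rw [e1]
      refine Finset.prod_le_prod (fun p hp => ?_) (fun p hp => ?_)
      · split_ifs
        · linarith [one_le_ww k (mem_filter.mp hp).2]
        · norm_num
      · have hpp : p.Prime := (mem_filter.mp hp).2
        have hge : ∀ w ∈ s, 1 ≤ (if p ∣ nd (b w.1) (b w.2) then ww k p else 1) := by
          intro w _
          split_ifs
          · exact one_le_ww k hpp
          · exact le_rfl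
        split_ifs with hb
        · unfold badPrimes at hb
          rw [mem_filter] at hb
          obtain ⟨i, j, hij, hdvd⟩ := hb.2
          have hmem : (i, j) ∈ s := by simp [hs, hij]
          rw [← Finset.mul_prod_erase s _ hmem]
          have h2 : 1 ≤ ∏ w ∈ s.erase (i, j), (if p ∣ nd (b w.1) (b w.2) then ww k p else 1) :=
            Finset.one_le_prod fun w hw => hge w (Finset.mem_of_mem_erase hw)
          simp only [hdvd, if_true]
          have h3 := one_le_ww k hpp
          nlinarith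
        · exact Finset.one_le_prod hge
    have hAG := Real.geom_mean_le_arith_mean_weighted s (fun _ => 1 / (N:ℝ))
      (fun w => gd k z H (nd (b w.1) (b w.2)) ^ N) (fun _ _ => by positivity)
      (by rw [Finset.sum_const, nsmul_eq_mul, ← hN]; field_simp)
      (fun w _ => by
        have := one_le_gd k z H (nd (b w.1) (b w.2))
        positivity)
    have e2 : ∏ w ∈ s, (gd k z H (nd (b w.1) (b w.2)) ^ N) ^ (1 / (N:ℝ))
        = ∏ w ∈ s, gd k z H (nd (b w.1) (b w.2)) := by
      refine Finset.prod_congr rfl fun w _ => ?_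
      have := one_le_gd k z H (nd (b w.1) (b w.2))
      rw [← Real.rpow_natCast, ← Real.rpow_mul (by linarith), mul_one_div_cancel hN0.ne',
        Real.rpow_one]
    rw [e2] at hAG
    have e3 : ∑ w ∈ s, (1 / (N:ℝ)) * (gd (k * N) z H (nd (b w.1) (b w.2)) - 1)
        = ∑ w ∈ s, (1 / (N:ℝ)) * gd (k * N) z H (nd (b w.1) (b w.2)) - 1 := by
      simp_rw [mul_sub, mul_one]
      rw [Finset.sum_sub_distrib, Finset.sum_const, nsmul_eq_mul, ← hN]
      congr 1
      field_simp
    rw [e3]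
    have e4 : ∑ w ∈ s, 1 / (N:ℝ) * gd k z H (nd (b w.1) (b w.2)) ^ N
        = ∑ w ∈ s, (1 / (N:ℝ)) * gd (k * N) z H (nd (b w.1) (b w.2)) := by
      refine Finset.sum_congr rfl fun w _ => ?_
      congr 1
      unfold gd
      rw [← Finset.prod_pow]
      refine Finset.prod_congr rfl fun p _ => ?_
      split_ifs
      · exact ww_pow k N p
      · simp
    linarith
  calc ∑ b ∈ injTuples r T, ((∏ p ∈ badPrimes b z H, ww k p) - 1)
      ≤ ∑ b ∈ injTuples r T, ∑ w ∈ s, (1 / (N:ℝ)) * (gd (k * N) z H (nd (b w.1) (b w.2)) - 1) :=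
        Finset.sum_le_sum fun b _ => hpt b
    _ = ∑ w ∈ s, (1 / (N:ℝ)) * ∑ b ∈ injTuples r T, (gd (k * N) z H (nd (b w.1) (b w.2)) - 1) := by
        rw [Finset.sum_comm]
        refine Finset.sum_congr rfl fun w _ => ?_
        rw [Finset.mul_sum]
    _ ≤ ∑ w ∈ s, (1 / (N:ℝ)) * (M * (T.card : ℝ) ^ r) := by
        refine Finset.sum_le_sum fun w hw => ?_
        refine mul_le_mul_of_nonneg_left ?_ (by positivity)
        rw [hs, mem_filter] at hw
        refine sum_injTuples_pair_le' w.1 w.2 hw.2 T (fun u v => gd (k * N) z H (nd u v) - 1) ?_ hM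
        intro u v
        have := one_le_gd (k * N) z H (nd u v)
        linarith
    _ = M * (T.card : ℝ) ^ r := by
        rw [Finset.sum_const, ← hN, nsmul_eq_mul]
        field_simp

/-- The pair exponent. -/
def FE (r : ℕ) : ℕ := (r - 1) * 2 * (r * (r - 1))

lemma sum_PP_sq_sub_one_le {r : ℕ} (hr : 2 ≤ r) (z H : ℕ) (T : Finset ℕ) {M : ℝ}
    (hM : ∑ u ∈ T, ∑ v ∈ T.filter (fun v => v ≠ u), (gd (FE r) z H (nd u v) - 1)
      ≤ M * (T.card : ℝ) ^ 2) :
    ∑ b ∈ injTuples r T, (PP b z H ^ 2 - 1) ≤ M * (T.card : ℝ) ^ r := by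
  simp_rw [PP_sq]
  exact avg_badPrimes_sub_one hr ((r-1)*2) z H T hM

lemma sum_PP_sub_one_sq_le' {r : ℕ} (hr : 2 ≤ r) (z H : ℕ) (T : Finset ℕ) {M : ℝ}
    (hM : ∑ u ∈ T, ∑ v ∈ T.filter (fun v => v ≠ u), (gd (FE r) z H (nd u v) - 1)
      ≤ M * (T.card : ℝ) ^ 2) :
    ∑ b ∈ injTuples r T, (PP b z H - 1) ^ 2 ≤ M * (T.card : ℝ) ^ r := by
  refine le_trans ?_ (sum_PP_sq_sub_one_le hr z H T hM)
  refine Finset.sum_le_sum fun b _ => ?_
  have := one_le_PP b z H
  nlinarith

lemma sum_PP_sq_le' {r : ℕ} (hr : 2 ≤ r) (z H : ℕ) (T : Finset ℕ) {M : ℝ}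
    (hM : ∑ u ∈ T, ∑ v ∈ T.filter (fun v => v ≠ u), (gd (FE r) z H (nd u v) - 1)
      ≤ M * (T.card : ℝ) ^ 2) :
    ∑ b ∈ injTuples r T, PP b z H ^ 2 ≤ (M + 1) * (T.card : ℝ) ^ r := by
  have h1 := sum_PP_sq_sub_one_le hr z H T hM
  rw [Finset.sum_sub_distrib, Finset.sum_const, nsmul_eq_mul, mul_one] at h1
  have h2 : ((injTuples r T).card : ℝ) ≤ (T.card : ℝ) ^ r := by
    exact_mod_cast card_injTuples_le r T
  linarith

set_option maxHeartbeats 4000000 in
/-- A positive proportion of the injective `r`-tuples from a finite set `B` of shifts satisfies the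
Hardy-Littlewood lower bound with any constant below one, provided that the primes dividing the
differences are well behaved on average. -/
theorem general_positive_proportion (r : ℕ) (hr : 2 ≤ r) {ρ : ℝ} (hρ0 : 0 < ρ) (hρ : ρ < 1) {M1 : ℝ}
    (hM10 : 0 < M1) :
    ∃ η δ : ℝ, 0 < η ∧ 0 < δ ∧ ∀ z : ℕ, ∃ L ξ : ℝ, 0 < L ∧ 0 < ξ ∧ ∀ᶠ x : ℕ in atTop,
      ∀ c d H : ℕ, ∀ B : Finset ℕ, 1 ≤ d →
      B ⊆ Icc 1 H → L * Real.log x ≤ B.card → ((c + d * H : ℕ) : ℝ) * Real.log x ≤ ξ * x →
      (∑ b ∈ injTuples r B, PP b 1 H ^ 2 ≤ M1 * (B.card : ℝ) ^ r) →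
      (∑ b ∈ injTuples r B, (PP b z H - 1) ^ 2 ≤ η * (B.card : ℝ) ^ r) →
      ∃ G ⊆ injTuples r B, δ * (B.card:ℝ) ^ r ≤ G.card ∧ ∀ b ∈ G, Adm (shift c d b) ∧
        ρ * SS (shift c d b) * (x / Real.log x ^ r) ≤ tcount (shift c d b) x := by
  classical
  have hr1 : 1 ≤ r := by omega
  obtain ⟨K, hK, hKup⟩ := tuple_upper r hr1
  set γ : ℝ := (1 - ρ) / 2 with hγ
  have hγ0 : 0 < γ := by rw [hγ]; linarith
  set t : ℝ := γ / (4 * K * M1) with ht
  have ht0 : 0 < t := by positivity
  set s : ℝ := γ / (4 * M1) with hs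
  have hs0 : 0 < s := by positivity
  set η : ℝ := γ * s / 4 with hη
  have hη0 : 0 < η := by positivity
  set δ : ℝ := γ * t / (4 * K) with hδ
  have hδ0 : 0 < δ := by positivity
  refine ⟨η, δ, hη0, hδ0, fun z => ?_⟩
  have hs1 : ∀ p ∈ Nat.primesLE z, p.Prime := fun p hp => (Nat.mem_primesLE.1 hp).2
  obtain ⟨L, ξ, hL, hξ, hlow⟩ := lower_asymp r hr (Nat.primesLE z) hs1 hγ0
  refine ⟨L, ξ, hL, hξ, ?_⟩
  have hlogx := eventually_rpow_le (θ := 0) (by norm_num) (A := 8 * r / γ) (k := r) (by positivity)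
  filter_upwards [hlow, hlogx, eventually_ge_atTop 3] with x hx1 hx2 hx3 c d H B hd hB hBL hcd hM1' hηsum
  have hx0 : (0:ℝ) < x := by
    have : 0 < x := by omega
    exact_mod_cast this
  have hx1' : (1:ℝ) < x := by
    have : 1 < x := by omega
    exact_mod_cast this
  have hlog : 0 < Real.log x := Real.log_pos hx1'
  have hd0 : d ≠ 0 := by omega
  have hBpos : (0:ℝ) < B.card := lt_of_lt_of_le (by positivity) hBL
  have hlower := hx1 c d H B hd hB hcd hBL
  set Y : ℝ := x / Real.log x ^ r with hY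
  have hY0 : 0 < Y := by positivity
  set D : ℝ := ((DD1 d)⁻¹) ^ (r - 1) with hD
  have hD1 : 1 ≤ D := one_le_pow₀ ((one_le_inv₀ (DD1_pos d)).mpr (DD1_le_one d))
  have hD0 : 0 < D := by linarith
  set T := injTuples r B with hT
  have hTsub : T ⊆ injTuples r (Icc 1 H) := injTuples_mono hB
  set G := T.filter (fun b => Adm (shift c d b) ∧
    ρ * SS (shift c d b) * Y ≤ tcount (shift c d b) x) with hG
  refine ⟨G, filter_subset _ _, ?_, fun b hb => (mem_filter.mp hb).2⟩
  by_contra hcon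
  push Not at hcon
  -- bounds for the singular series
  have hinj : ∀ b ∈ T, Function.Injective (shift c d b) := fun b hb =>
    shift_injective c d hd0 b (mem_injTuples.mp hb).2
  have hSS0 : ∀ b ∈ T, 0 ≤ SS (shift c d b) := fun b hb =>
    SS_nonneg _ (hasProd_SS _ (hinj b hb))
  have hSSW : ∀ b ∈ T, SS (shift c d b) ≤ WW (Nat.primesLE z) c d b * PP b z H := fun b hb =>
    SS_le hr1 c d H hd0 b (hTsub hb) z (hasProd_SS _ (hinj b hb))
  have hSSD : ∀ b ∈ T, SS (shift c d b) ≤ D * PP b 1 H := fun b hb =>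
    SS_le' hr1 c d H hd0 b (hTsub hb) (hasProd_SS _ (hinj b hb))
  have hWWD : ∀ b ∈ T, WW (Nat.primesLE z) c d b ≤ D * PP b 1 H := fun b hb =>
    WW_le hr1 _ hs1 c d H hd0 b (hTsub hb)
  have hWW0 : ∀ b : Fin r → ℕ, 0 ≤ WW (Nat.primesLE z) c d b := fun b => WW_nonneg _ hs1 c d b
  -- upper bounds for the counts
  have hup1 : ∀ b ∈ G, (tcount (shift c d b) x : ℝ) ≤ K * (D * PP b 1 H) * Y := by
    intro b hb
    have hb' := mem_filter.mp hb
    have h2 := hKup (shift c d b) hb'.2.1 (SS (shift c d b)) (hasProd_SS _ (hinj b hb'.1)) x (by omega)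
    have h3 : K * SS (shift c d b) * x / Real.log x ^ r = K * SS (shift c d b) * Y := by
      rw [hY]; ring
    rw [h3] at h2
    refine le_trans h2 ?_
    have := hSSD b hb'.1
    gcongr
  have hup2 : ∀ b ∈ T \ G, (tcount (shift c d b) x : ℝ)
      ≤ ρ * (WW (Nat.primesLE z) c d b * PP b z H) * Y + r := by
    intro b hb
    rw [Finset.mem_sdiff] at hb
    have hS0 := hSS0 b hb.1
    have hSW := hSSW b hb.1
    have h5 : ρ * SS (shift c d b) * Y ≤ ρ * (WW (Nat.primesLE z) c d b * PP b z H) * Y := by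
      gcongr
    have h6 : 0 ≤ ρ * SS (shift c d b) * Y := by positivity
    have hr0 : (0:ℝ) ≤ r := by positivity
    by_cases hadm : Adm (shift c d b)
    · have h2 : ¬ (ρ * SS (shift c d b) * Y ≤ tcount (shift c d b) x) := by
        intro h3
        exact hb.2 (mem_filter.mpr ⟨hb.1, hadm, h3⟩)
      push Not at h2
      linarith
    · unfold Adm at hadm
      push Not at hadm
      obtain ⟨p, hp, hpnu⟩ := hadm
      have h3 : (tcount (shift c d b) x : ℝ) ≤ r := by
        exact_mod_cast tcount_le_of_inadm (shift c d b) hp hpnu x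
      linarith
  -- the sums
  set HR : ℝ := (B.card:ℝ) ^ r with hHR
  have hHR0 : 0 < HR := by positivity
  have hsumG : ∑ b ∈ G, PP b 1 H ≤ (t * M1 / 2 + δ / (2 * t)) * HR := by
    have h2 : ∀ b ∈ G, PP b 1 H ≤ t / 2 * PP b 1 H ^ 2 + 1 / (2 * t) := by
      intro b _
      have h3 : t / 2 * PP b 1 H ^ 2 + 1 / (2 * t) - PP b 1 H
          = (t * PP b 1 H - 1) ^ 2 / (2 * t) := by
        field_simp
        ring
      have h4 : 0 ≤ (t * PP b 1 H - 1) ^ 2 / (2 * t) := by positivity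
      linarith
    have h5 := Finset.sum_le_sum h2
    rw [Finset.sum_add_distrib, ← Finset.mul_sum, Finset.sum_const, nsmul_eq_mul] at h5
    have h6 : ∑ b ∈ G, PP b 1 H ^ 2 ≤ M1 * HR := by
      refine le_trans ?_ hM1'
      exact Finset.sum_le_sum_of_subset_of_nonneg (filter_subset _ _)
        fun _ _ _ => by positivity
    calc ∑ b ∈ G, PP b 1 H ≤ t / 2 * (∑ b ∈ G, PP b 1 H ^ 2) + G.card * (1 / (2 * t)) := h5
      _ ≤ t / 2 * (M1 * HR) + (δ * HR) * (1 / (2 * t)) := by gcongr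
      _ = _ := by ring
  have hsumT : ∑ b ∈ T, PP b 1 H * (PP b z H - 1) ≤ (s * M1 / 2 + η / (2 * s)) * HR := by
    have h2 : ∀ b ∈ T, PP b 1 H * (PP b z H - 1)
        ≤ s / 2 * PP b 1 H ^ 2 + 1 / (2 * s) * (PP b z H - 1) ^ 2 := by
      intro b _
      have h3 : s / 2 * PP b 1 H ^ 2 + 1 / (2 * s) * (PP b z H - 1) ^ 2 - PP b 1 H * (PP b z H - 1)
          = (s * PP b 1 H - (PP b z H - 1)) ^ 2 / (2 * s) := by
        field_simp
        ring
      have h4 : 0 ≤ (s * PP b 1 H - (PP b z H - 1)) ^ 2 / (2 * s) := by positivity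
      linarith
    have h5 := Finset.sum_le_sum h2
    rw [Finset.sum_add_distrib, ← Finset.mul_sum, ← Finset.mul_sum] at h5
    calc ∑ b ∈ T, PP b 1 H * (PP b z H - 1)
        ≤ s / 2 * (∑ b ∈ T, PP b 1 H ^ 2) + 1 / (2 * s) * ∑ b ∈ T, (PP b z H - 1) ^ 2 := h5
      _ ≤ s / 2 * (M1 * HR) + 1 / (2 * s) * (η * HR) := by gcongr
      _ = _ := by ring
  -- the total
  have hWtot : ∑ b ∈ T, WW (Nat.primesLE z) c d b
      ≤ ∑ b ∈ Fintype.piFinset (fun _ : Fin r => B), WW (Nat.primesLE z) c d b :=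
    Finset.sum_le_sum_of_subset_of_nonneg (filter_subset _ _) fun b _ _ => hWW0 b
  set SW := ∑ b ∈ Fintype.piFinset (fun _ : Fin r => B), WW (Nat.primesLE z) c d b with hSW
  have hTcard : (T.card : ℝ) ≤ HR := by
    rw [hHR, hT]
    exact_mod_cast card_injTuples_le r B
  have htotal : ∑ b ∈ T, (tcount (shift c d b) x : ℝ)
      ≤ K * D * Y * ((t * M1 / 2 + δ / (2 * t)) * HR)
        + ρ * Y * (SW + D * ((s * M1 / 2 + η / (2 * s)) * HR)) + r * HR := by
    rw [← Finset.sum_sdiff (filter_subset (fun b => Adm (shift c d b) ∧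
      ρ * SS (shift c d b) * Y ≤ tcount (shift c d b) x) T)]
    have h2 : ∑ b ∈ G, (tcount (shift c d b) x : ℝ) ≤ K * D * Y * ((t * M1 / 2 + δ / (2 * t)) * HR) := by
      calc ∑ b ∈ G, (tcount (shift c d b) x : ℝ) ≤ ∑ b ∈ G, K * (D * PP b 1 H) * Y :=
            Finset.sum_le_sum hup1
        _ = K * D * Y * ∑ b ∈ G, PP b 1 H := by
            rw [Finset.mul_sum]
            exact Finset.sum_congr rfl fun b _ => by ring
        _ ≤ _ := by gcongr
    have h3 : ∑ b ∈ T \ G, (tcount (shift c d b) x : ℝ)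
        ≤ ρ * Y * (SW + D * ((s * M1 / 2 + η / (2 * s)) * HR)) + r * HR := by
      calc ∑ b ∈ T \ G, (tcount (shift c d b) x : ℝ)
          ≤ ∑ b ∈ T \ G, (ρ * (WW (Nat.primesLE z) c d b * PP b z H) * Y + r) :=
            Finset.sum_le_sum hup2
        _ ≤ ∑ b ∈ T, (ρ * (WW (Nat.primesLE z) c d b * PP b z H) * Y + r) := by
            refine Finset.sum_le_sum_of_subset_of_nonneg Finset.sdiff_subset fun b _ _ => ?_
            have h4 := hWW0 b
            have h5 := one_le_PP b z H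
            positivity
        _ = ρ * Y * (∑ b ∈ T, WW (Nat.primesLE z) c d b
              + ∑ b ∈ T, WW (Nat.primesLE z) c d b * (PP b z H - 1)) + r * T.card := by
            rw [Finset.sum_add_distrib, Finset.sum_const, nsmul_eq_mul, ← Finset.sum_add_distrib,
              Finset.mul_sum]
            congr 1
            · exact Finset.sum_congr rfl fun b _ => by ring
            · ring
        _ ≤ ρ * Y * (SW + D * ((s * M1 / 2 + η / (2 * s)) * HR)) + r * HR := by
            have h6 : ∑ b ∈ T, WW (Nat.primesLE z) c d b * (PP b z H - 1)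
                ≤ D * ((s * M1 / 2 + η / (2 * s)) * HR) := by
              calc ∑ b ∈ T, WW (Nat.primesLE z) c d b * (PP b z H - 1)
                  ≤ ∑ b ∈ T, (D * PP b 1 H) * (PP b z H - 1) := by
                    refine Finset.sum_le_sum fun b hb => ?_
                    apply mul_le_mul_of_nonneg_right (hWWD b hb)
                    linarith [one_le_PP b z H]
                _ = D * ∑ b ∈ T, PP b 1 H * (PP b z H - 1) := by
                    rw [Finset.mul_sum]
                    exact Finset.sum_congr rfl fun b _ => by ring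
                _ ≤ _ := by gcongr
            gcongr
    rw [← hG]
    linarith
  -- constants
  have hc1 : K * (t * M1 / 2 + δ / (2 * t)) = γ / 4 := by
    rw [hδ, ht]
    field_simp
    ring
  have hc2 : s * M1 / 2 + η / (2 * s) = γ / 4 := by
    rw [hη, hs]
    field_simp
    ring
  have hSWge : D * HR ≤ SW := by
    refine le_trans ?_ (sum_WW_ge (Nat.primesLE z) hs1 B c d r hr1 hd0)
    rw [← hD]
  have hrY : (r:ℝ) ≤ Y * (γ / 8) := by
    rw [Real.rpow_zero, mul_one] at hx2
    rw [hY, div_mul_eq_mul_div, le_div_iff₀ (by positivity)]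
    have h3 := mul_le_mul_of_nonneg_right hx2 (show 0 ≤ γ / 8 by positivity)
    calc (r:ℝ) * Real.log x ^ r = 8 * r / γ * Real.log x ^ r * (γ / 8) := by field_simp
      _ ≤ _ := h3
  have hfin : (1 - γ) * Y * SW ≤ K * D * Y * ((t * M1 / 2 + δ / (2 * t)) * HR)
        + ρ * Y * (SW + D * ((s * M1 / 2 + η / (2 * s)) * HR)) + r * HR := hlower.trans htotal
  rw [hc2] at hfin
  have e1 : K * D * Y * ((t * M1 / 2 + δ / (2 * t)) * HR) = Y * (D * HR) * (γ / 4) := by
    rw [← hc1]; ring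
  rw [e1] at hfin
  have e2 : (1 - γ) - ρ = γ := by rw [hγ]; ring
  have hA : γ * Y * (D * HR) ≤ Y * (D * HR) * (γ / 4) + ρ * Y * (D * (γ / 4 * HR)) + r * HR := by
    have h2 : γ * Y * (D * HR) ≤ γ * Y * SW := by gcongr
    have h3 : γ * Y * SW = (1 - γ) * Y * SW - ρ * Y * SW := by
      have : γ = (1 - γ) - ρ := e2.symm
      calc γ * Y * SW = ((1 - γ) - ρ) * Y * SW := by rw [← this]
        _ = _ := by ring
    have h4 : ρ * Y * (SW + D * (γ / 4 * HR)) = ρ * Y * SW + ρ * Y * (D * (γ / 4 * HR)) := by ring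
    linarith
  have hB1 : ρ * Y * (D * (γ / 4 * HR)) ≤ Y * (D * HR) * (γ / 4) := by
    have h2 : 0 ≤ Y * (D * HR) * (γ / 4) := by positivity
    calc ρ * Y * (D * (γ / 4 * HR)) = ρ * (Y * (D * HR) * (γ / 4)) := by ring
      _ ≤ 1 * (Y * (D * HR) * (γ / 4)) := by gcongr
      _ = _ := one_mul _
  have hB2 : r * HR ≤ Y * (D * HR) * (γ / 8) := by
    calc r * HR ≤ (Y * (γ / 8)) * HR := by gcongr
      _ ≤ (Y * (γ / 8)) * (D * HR) := by
          apply mul_le_mul_of_nonneg_left _ (by positivity)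
          nlinarith
      _ = _ := by ring
  have hpos : 0 < Y * (D * HR) * γ := by positivity
  have e3 : γ * Y * (D * HR) = Y * (D * HR) * γ := by ring
  rw [e3] at hA
  linarith

end Pool.Agent.HL2
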