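import Pool.Agent.Lib.HL.Main

/-!
# Averages over injective tuples from a general finite set, from averages over pairs
-/

set_option autoImplicit false

open Finset

namespace Pool.Agent.HL2

open Pool.Agent.Lib.Sieve4 Pool.Agent.HL

/-- Average of a function of two coordinates over injective tuples from `T`. -/
lemma sum_injTuples_pair_le' {r : ℕ} (i j : Fin r) (hij : i ≠ j) (T : Finset ℕ) (G : ℕ → ℕ → ℝ)
    (hG : ∀ u v, 0 ≤ G u v) {M : ℝ}
    (hM : ∑ u ∈ T, ∑ v ∈ T.filter (fun v => v ≠ u), G u v ≤ M * (T.card : ℝ) ^ 2) :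
    ∑ b ∈ injTuples r T, G (b i) (b j) ≤ M * (T.card : ℝ) ^ r := by
  classical
  have hr : 2 ≤ r := by
    have h1 := i.2
    have h2 := j.2
    have h3 : (i:ℕ) ≠ j := fun h => hij (Fin.ext h)
    omega
  have hmaps : ∀ b ∈ injTuples r T, (b i, b j) ∈ (T ×ˢ T).filter (fun w => w.2 ≠ w.1) := by
    intro b hb
    rw [mem_injTuples] at hb
    rw [mem_filter, mem_product]
    exact ⟨⟨hb.1 i, hb.1 j⟩, fun h => hij (hb.2 h.symm)⟩
  rw [← Finset.sum_fiberwise_of_maps_to hmaps]
  have hfib : ∀ w ∈ (T ×ˢ T).filter (fun w => w.2 ≠ w.1),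
      ∑ b ∈ (injTuples r T).filter (fun b => (b i, b j) = w), G (b i) (b j)
        ≤ G w.1 w.2 * (T.card : ℝ) ^ (r - 2) := by
    intro w hw
    rw [mem_filter, mem_product] at hw
    have e1 : ∀ b ∈ (injTuples r T).filter (fun b => (b i, b j) = w), G (b i) (b j) = G w.1 w.2 := by
      intro b hb
      rw [mem_filter] at hb
      rw [← hb.2]
    rw [Finset.sum_congr rfl e1, Finset.sum_const, nsmul_eq_mul, mul_comm]
    refine mul_le_mul_of_nonneg_left ?_ (hG _ _)
    have hsub : (injTuples r T).filter (fun b => (b i, b j) = w)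
        ⊆ Fintype.piFinset (fun k => if k = i then {w.1} else if k = j then {w.2} else T) := by
      intro b hb
      rw [mem_filter, mem_injTuples] at hb
      rw [Fintype.mem_piFinset]
      intro k
      by_cases hki : k = i
      · subst hki
        simp [← hb.2]
      · by_cases hkj : k = j
        · subst hkj
          simp [hki, ← hb.2]
        · simp [hki, hkj, hb.1.1 k]
    have hcard := Finset.card_le_card hsub
    rw [Fintype.card_piFinset] at hcard
    have e2 : ∏ k : Fin r, (if k = i then ({w.1} : Finset ℕ) else if k = j then {w.2} else T).card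
        = T.card ^ (r - 2) := by
      have e3 : ∀ k : Fin r, (if k = i then ({w.1} : Finset ℕ) else if k = j then {w.2} else T).card
          = if k ∈ (univ \ {i, j} : Finset (Fin r)) then T.card else 1 := by
        intro k
        by_cases hki : k = i
        · simp [hki]
        · by_cases hkj : k = j
          · have : ¬ (j = i) := fun h => hij h.symm
            simp [hkj, this]
          · simp [hki, hkj]
      rw [Finset.prod_congr rfl (fun k _ => e3 k), Finset.prod_ite_mem, Finset.univ_inter,
        Finset.prod_const, Finset.card_sdiff_of_subset (subset_univ _), Finset.card_univ,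
        Fintype.card_fin, Finset.card_pair hij]
    rw [e2] at hcard
    exact_mod_cast hcard
  refine (Finset.sum_le_sum hfib).trans ?_
  rw [← Finset.sum_mul, Finset.sum_filter, Finset.sum_product]
  have h1 : ∑ u ∈ T, ∑ v ∈ T, (if v ≠ u then G u v else 0) ≤ M * (T.card : ℝ) ^ 2 := by
    refine le_trans (le_of_eq ?_) hM
    refine Finset.sum_congr rfl fun u _ => ?_
    rw [Finset.sum_filter]
  calc (∑ u ∈ T, ∑ v ∈ T, (if v ≠ u then G u v else 0)) * (T.card : ℝ) ^ (r - 2)
      ≤ (M * (T.card : ℝ) ^ 2) * (T.card : ℝ) ^ (r - 2) := by gcongr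
    _ = M * (T.card : ℝ) ^ r := by
        rw [mul_assoc, ← pow_add]
        congr 2
        omega

/-- The average over tuples from a general set, given the average over pairs. -/
theorem avg_badPrimes' {r : ℕ} (hr : 2 ≤ r) (k z H : ℕ) (T : Finset ℕ) {M : ℝ}
    (hM : ∑ u ∈ T, ∑ v ∈ T.filter (fun v => v ≠ u), gd (k * (r * (r - 1))) z H (nd u v)
      ≤ M * (T.card : ℝ) ^ 2) :
    ∑ b ∈ injTuples r T, ∏ p ∈ badPrimes b z H, ww k p ≤ M * (T.card : ℝ) ^ r := by
  classical
  set s : Finset (Fin r × Fin r) := univ.filter (fun w => w.1 ≠ w.2) with hs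
  set N := s.card with hN
  have hNval : N = r * (r - 1) := by
    have : s = (univ : Finset (Fin r)).offDiag := by
      ext w; simp [hs]
    rw [hN, this, Finset.offDiag_card, Finset.card_univ, Fintype.card_fin, Nat.mul_sub_one]
  rw [← hNval] at hM
  have hNpos : 0 < N := by
    rw [hNval]
    exact Nat.mul_pos (by omega) (by omega)
  have hN0 : (0:ℝ) < N := by exact_mod_cast hNpos
  -- pointwise bound
  have hpt : ∀ b : Fin r → ℕ, ∏ p ∈ badPrimes b z H, ww k p
      ≤ ∑ w ∈ s, (1 / (N:ℝ)) * gd (k * N) z H (nd (b w.1) (b w.2)) := by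
    intro b
    have h1 : ∏ p ∈ badPrimes b z H, ww k p ≤ ∏ w ∈ s, gd k z H (nd (b w.1) (b w.2)) := by
      unfold gd
      rw [Finset.prod_comm]
      have e1 : ∏ p ∈ badPrimes b z H, ww k p
          = ∏ p ∈ primesIoc z H, (if p ∈ badPrimes b z H then ww k p else 1) := by
        rw [Finset.prod_ite_mem]
        congr 1
        unfold badPrimes
        ext p
        simp
      rw [e1]
      refine Finset.prod_le_prod (fun p hp => ?_) (fun p hp => ?_)
      · split_ifs
        · linarith [one_le_ww k (mem_filter.mp hp).2]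
        · norm_num
      · have hpp : p.Prime := (mem_filter.mp hp).2
        have hge : ∀ w ∈ s, 1 ≤ (if p ∣ nd (b w.1) (b w.2) then ww k p else 1) := by
          intro w _
          split_ifs
          · exact one_le_ww k hpp
          · exact le_rfl
        split_ifs with hb
        · unfold badPrimes at hb
          rw [mem_filter] at hb
          obtain ⟨i, j, hij, hdvd⟩ := hb.2
          have hmem : (i, j) ∈ s := by simp [hs, hij]
          rw [← Finset.mul_prod_erase s _ hmem]
          have h2 : 1 ≤ ∏ w ∈ s.erase (i, j), (if p ∣ nd (b w.1) (b w.2) then ww k p else 1) :=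
            Finset.one_le_prod fun w hw => hge w (Finset.mem_of_mem_erase hw)
          simp only [hdvd, if_true]
          have h3 := one_le_ww k hpp
          nlinarith
        · exact Finset.one_le_prod hge
    refine h1.trans ?_
    have hAG := Real.geom_mean_le_arith_mean_weighted s (fun _ => 1 / (N:ℝ))
      (fun w => gd k z H (nd (b w.1) (b w.2)) ^ N) (fun _ _ => by positivity)
      (by rw [Finset.sum_const, nsmul_eq_mul, ← hN]; field_simp)
      (fun w _ => by
        have := one_le_gd k z H (nd (b w.1) (b w.2))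
        positivity)
    have e2 : ∏ w ∈ s, (gd k z H (nd (b w.1) (b w.2)) ^ N) ^ (1 / (N:ℝ))
        = ∏ w ∈ s, gd k z H (nd (b w.1) (b w.2)) := by
      refine Finset.prod_congr rfl fun w _ => ?_
      have := one_le_gd k z H (nd (b w.1) (b w.2))
      rw [← Real.rpow_natCast, ← Real.rpow_mul (by linarith), mul_one_div_cancel hN0.ne',
        Real.rpow_one]
    rw [e2] at hAG
    refine hAG.trans (le_of_eq ?_)
    refine Finset.sum_congr rfl fun w _ => ?_
    congr 1
    unfold gd
    rw [← Finset.prod_pow]
    refine Finset.prod_congr rfl fun p _ => ?_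
    split_ifs
    · exact ww_pow k N p
    · simp
  calc ∑ b ∈ injTuples r T, ∏ p ∈ badPrimes b z H, ww k p
      ≤ ∑ b ∈ injTuples r T, ∑ w ∈ s, (1 / (N:ℝ)) * gd (k * N) z H (nd (b w.1) (b w.2)) :=
        Finset.sum_le_sum fun b _ => hpt b
    _ = ∑ w ∈ s, (1 / (N:ℝ)) * ∑ b ∈ injTuples r T, gd (k * N) z H (nd (b w.1) (b w.2)) := by
        rw [Finset.sum_comm]
        refine Finset.sum_congr rfl fun w _ => ?_
        rw [Finset.mul_sum]
    _ ≤ ∑ w ∈ s, (1 / (N:ℝ)) * (M * (T.card : ℝ) ^ r) := by
        refine Finset.sum_le_sum fun w hw => ?_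
        refine mul_le_mul_of_nonneg_left ?_ (by positivity)
        rw [hs, mem_filter] at hw
        refine sum_injTuples_pair_le' w.1 w.2 hw.2 T (fun u v => gd (k * N) z H (nd u v)) ?_ hM
        intro u v
        have := one_le_gd (k * N) z H (nd u v)
        linarith
    _ = M * (T.card : ℝ) ^ r := by
        rw [Finset.sum_const, ← hN, nsmul_eq_mul]
        field_simp

end Pool.Agent.HL2
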