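import Pool.Agent.Lib.HL2.PolyRoots

/-!
# Pair averages for polynomial sequences
-/

set_option autoImplicit false

open Finset Filter Topology

namespace Pool.Agent.HL2

open Pool.Agent.Lib.Sieve4 Pool.Agent.HL

/-- The pairs of distinct arguments. -/
def prs (k0 K : ℕ) : Finset (ℕ × ℕ) := ((Icc k0 K) ×ˢ (Icc k0 K)).filter (fun w => w.1 ≠ w.2)

lemma mem_prs {k0 K : ℕ} {w : ℕ × ℕ} :
    w ∈ prs k0 K ↔ (k0 ≤ w.1 ∧ w.1 ≤ K) ∧ (k0 ≤ w.2 ∧ w.2 ≤ K) ∧ w.1 ≠ w.2 := by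
  unfold prs
  rw [mem_filter, mem_product, mem_Icc, mem_Icc]
  tauto

lemma card_prs_le (k0 K : ℕ) (hk0 : 1 ≤ k0) : ((prs k0 K).card : ℝ) ≤ (K:ℝ) ^ 2 := by
  have h1 : (prs k0 K).card ≤ K ^ 2 := by
    unfold prs
    refine (Finset.card_filter_le _ _).trans ?_
    rw [card_product, Nat.card_Icc, sq]
    exact Nat.mul_le_mul (by omega) (by omega)
  exact_mod_cast h1

/-- The facts on the polynomial used below. -/
structure PF (f : Polynomial ℤ) (k0 : ℕ) : Prop where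
  hdeg : 2 ≤ f.natDegree
  hlead : 0 < f.leadingCoeff
  hk0 : 1 ≤ k0
  hmono : ∀ k l : ℕ, k0 ≤ k → k < l → f.eval (k:ℤ) < f.eval (l:ℤ)
  hpos : ∀ k : ℕ, k0 ≤ k → 0 < f.eval (k:ℤ)
  hle : ∀ k : ℕ, k0 ≤ k → f.eval (k:ℤ) ≤ (k:ℤ) ^ (f.natDegree + 1)

lemma PF.pv_cast {f : Polynomial ℤ} {k0 : ℕ} (h : PF f k0) {k : ℕ} (hk : k0 ≤ k) :
    ((pv f k : ℕ) : ℤ) = f.eval (k:ℤ) := Int.toNat_of_nonneg (h.hpos k hk).le

lemma PF.pv_pos {f : Polynomial ℤ} {k0 : ℕ} (h : PF f k0) {k : ℕ} (hk : k0 ≤ k) :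
    0 < pv f k := by
  have := h.pv_cast hk
  have h2 := h.hpos k hk
  omega

lemma PF.pv_lt {f : Polynomial ℤ} {k0 : ℕ} (h : PF f k0) {k l : ℕ} (hk : k0 ≤ k) (hkl : k < l) :
    pv f k < pv f l := by
  have h1 := h.pv_cast hk
  have h2 := h.pv_cast (hk.trans hkl.le)
  have h3 := h.hmono k l hk hkl
  omega

lemma PF.pv_le {f : Polynomial ℤ} {k0 : ℕ} (h : PF f k0) {k l : ℕ} (hk : k0 ≤ k) (hkl : k ≤ l) :
    pv f k ≤ pv f l := by
  rcases hkl.lt_or_eq with h1 | h1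
  · exact (h.pv_lt hk h1).le
  · rw [h1]

lemma PF.pv_ne {f : Polynomial ℤ} {k0 : ℕ} (h : PF f k0) {k l : ℕ} (hk : k0 ≤ k) (hl : k0 ≤ l)
    (hkl : k ≠ l) : pv f k ≠ pv f l := by
  rcases lt_or_gt_of_ne hkl with h1 | h1
  · exact (h.pv_lt hk h1).ne
  · exact (h.pv_lt hl h1).ne'

lemma PF.nd_le {f : Polynomial ℤ} {k0 : ℕ} (h : PF f k0) {k l K : ℕ} (hk : k0 ≤ k) (hl : k0 ≤ l)
    (hkK : k ≤ K) (hlK : l ≤ K) : nd (pv f k) (pv f l) ≤ K ^ (f.natDegree + 1) := by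
  have h1 := h.pv_cast hk
  have h2 := h.pv_cast hl
  have h3 : pv f k ≤ K ^ (f.natDegree + 1) := by
    have h4 := h.hle k hk
    rw [← h1] at h4
    have h5 : pv f k ≤ k ^ (f.natDegree + 1) := by exact_mod_cast h4
    exact h5.trans (Nat.pow_le_pow_left hkK _)
  have h3' : pv f l ≤ K ^ (f.natDegree + 1) := by
    have h4 := h.hle l hl
    rw [← h2] at h4
    have h5 : pv f l ≤ l ^ (f.natDegree + 1) := by exact_mod_cast h4
    exact h5.trans (Nat.pow_le_pow_left hlK _)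
  unfold nd
  omega

/-- Count of pairs with a divisibility. -/
lemma PF.count {f : Polynomial ℤ} {k0 : ℕ} (h : PF f k0) (S : Finset ℕ)
    (hS : ∀ p ∈ S, p.Prime ∧ ¬ (p:ℤ) ∣ f.leadingCoeff) (K : ℕ) (hD : ∏ p ∈ S, p ≤ K) :
    (((prs k0 K).filter (fun w => (∏ p ∈ S, p) ∣ nd (pv f w.1) (pv f w.2))).card : ℝ)
      ≤ 2 * (K:ℝ) ^ 2 * ∏ p ∈ S, ((f.natDegree : ℝ) / p) := by
  classical
  set D := ∏ p ∈ S, p with hDdef
  have hDpos : 0 < D := Finset.prod_pos fun p hp => (hS p hp).1.pos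
  have hD0 : (0:ℝ) < D := by exact_mod_cast hDpos
  have h1 : ((prs k0 K).filter (fun w => D ∣ nd (pv f w.1) (pv f w.2))).card
      ≤ ∑ k ∈ Icc 1 K, ((Icc 1 K).filter (fun t : ℕ => (D:ℤ) ∣ f.eval (t:ℤ) - f.eval (k:ℤ))).card := by
    rw [← Finset.card_sigma]
    refine Finset.card_le_card_of_injOn (fun w : ℕ × ℕ => (⟨w.1, w.2⟩ : (_ : ℕ) × ℕ)) ?_ ?_
    · intro w hw
      rw [mem_coe, mem_filter, mem_prs] at hw
      obtain ⟨⟨⟨h2, h3⟩, ⟨h4, h5⟩, _⟩, h6⟩ := hw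
      have hk0 := h.hk0
      rw [mem_coe, mem_sigma, mem_Icc, mem_filter, mem_Icc]
      refine ⟨⟨hk0.trans h2, h3⟩, ⟨hk0.trans h4, h5⟩, ?_⟩
      show (D:ℤ) ∣ f.eval (w.2:ℤ) - f.eval (w.1:ℤ)
      rw [← h.pv_cast h2, ← h.pv_cast h4]
      unfold nd at h6
      rw [← Int.natCast_dvd] at h6
      have h7 := (dvd_neg (α := ℤ)).mpr h6
      rwa [neg_sub] at h7
    · intro w _ w' _ hww
      simp only [Sigma.mk.injEq, heq_eq_eq] at hww
      exact Prod.ext hww.1 hww.2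
  have h2 : ∀ k ∈ Icc 1 K, ((Icc 1 K).filter (fun t : ℕ => (D:ℤ) ∣ f.eval (t:ℤ) - f.eval (k:ℤ))).card
      ≤ (K / D + 1) * f.natDegree ^ S.card := fun k _ =>
    card_sols_Icc f (by have := h.hdeg; omega) S hS _ K
  have h3 := h1.trans (Finset.sum_le_sum h2)
  rw [Finset.sum_const, Nat.card_Icc, smul_eq_mul, Nat.add_sub_cancel] at h3
  have h4 : ((((prs k0 K).filter (fun w => D ∣ nd (pv f w.1) (pv f w.2))).card : ℕ) : ℝ)
      ≤ (K:ℝ) * (((K / D : ℕ):ℝ) + 1) * (f.natDegree : ℝ) ^ S.card := by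
    have : ((((prs k0 K).filter (fun w => D ∣ nd (pv f w.1) (pv f w.2))).card : ℕ) : ℝ)
      ≤ ((K * ((K / D + 1) * f.natDegree ^ S.card) : ℕ) : ℝ) := by exact_mod_cast h3
    refine this.trans (le_of_eq ?_)
    push_cast
    ring
  refine h4.trans ?_
  have h5 : ((K / D : ℕ):ℝ) ≤ K / D := Nat.cast_div_le
  have h6 : (1:ℝ) ≤ K / D := by
    rw [le_div_iff₀ hD0, one_mul]
    exact_mod_cast hD
  have h7 : ∏ p ∈ S, ((f.natDegree : ℝ) / p) = (f.natDegree : ℝ) ^ S.card / D := by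
    rw [Finset.prod_div_distrib, Finset.prod_const, hDdef]
    push_cast
    rfl
  rw [h7]
  calc (K:ℝ) * (((K / D : ℕ):ℝ) + 1) * (f.natDegree : ℝ) ^ S.card
      ≤ (K:ℝ) * ((K / D:ℝ) + K / D) * (f.natDegree : ℝ) ^ S.card := by gcongr
    _ = _ := by
      field_simp
      ring

/-- The pair average over polynomial values is small beyond `z`. -/
theorem poly_pair_avg {f : Polynomial ℤ} {k0 : ℕ} (h : PF f k0) (Kc : ℕ) {ε : ℝ} (hε : 0 < ε) :
    ∃ z : ℕ, 1 ≤ z ∧ ∀ᶠ K : ℕ in atTop, ∀ H : ℕ,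
      ∑ w ∈ prs k0 K, (gd Kc z H (nd (pv f w.1) (pv f w.2)) - 1) ≤ ε * (K:ℝ) ^ 2 := by
  classical
  -- reduce to ε ≤ 1
  wlog hε1 : ε ≤ 1 generalizing ε
  · obtain ⟨z, hz, hK⟩ := this (ε := 1) (by norm_num) le_rfl
    refine ⟨z, hz, ?_⟩
    filter_upwards [hK] with K hK H
    refine (hK H).trans ?_
    have : (0:ℝ) ≤ (K:ℝ) ^ 2 := by positivity
    nlinarith
  set m : ℝ := (f.natDegree : ℝ) with hm
  have hm0 : 0 ≤ m := by positivity
  -- choose z
  obtain ⟨z, hz1, hz2, hz3⟩ : ∃ z : ℕ, 1 ≤ z ∧ f.leadingCoeff.natAbs ≤ z ∧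
      2 * (Real.exp (m * 2 ^ (Kc + 1) / z) - 1) ≤ ε / 4 := by
    have h1 : Tendsto (fun z : ℕ => 2 * (Real.exp (m * 2 ^ (Kc + 1) / (z:ℝ)) - 1)) atTop (𝓝 0) := by
      have h2 : Tendsto (fun z : ℕ => m * 2 ^ (Kc + 1) / (z:ℝ)) atTop (𝓝 0) :=
        tendsto_const_div_atTop_nhds_zero_nat _
      have h3 := (Real.continuous_exp.tendsto 0).comp h2
      simp only [Real.exp_zero] at h3
      have h4 := (h3.sub_const 1).const_mul 2
      simpa [Function.comp_def] using h4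
    obtain ⟨z, hz⟩ := ((h1.eventually_le_const (show (0:ℝ) < ε / 4 by positivity)).and
      ((eventually_ge_atTop 1).and (eventually_ge_atTop f.leadingCoeff.natAbs))).exists
    exact ⟨z, hz.2.1, hz.2.2, hz.1⟩
  refine ⟨z, hz1, ?_⟩
  set ε' : ℝ := ε / 2 with hε'
  have hε'0 : 0 < ε' := by positivity
  have hlogε : 0 < Real.log (1 + ε') := Real.log_pos (by linarith)
  -- the parameter y
  have hlogK : Tendsto (fun K : ℕ => Real.log (K:ℝ)) atTop atTop :=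
    Real.tendsto_log_atTop.comp tendsto_natCast_atTop_atTop
  have hy : Tendsto (fun K : ℕ => ⌊Real.log (K:ℝ) / 2⌋₊) atTop atTop :=
    tendsto_nat_floor_atTop.comp (hlogK.atTop_div_const (by norm_num))
  have hlogy : Tendsto (fun K : ℕ => Real.log ((⌊Real.log (K:ℝ) / 2⌋₊ : ℕ) : ℝ)) atTop atTop :=
    Real.tendsto_log_atTop.comp (tendsto_natCast_atTop_atTop.comp hy)
  filter_upwards [hlogK.eventually_ge_atTop 4, hy.eventually_ge_atTop 2, eventually_ge_atTop 3,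
    hlogy.eventually_ge_atTop (8 * Kc * (m + 1) / Real.log (1 + ε'))] with K hK1 hK2 hK3 hK4 H
  set y := ⌊Real.log (K:ℝ) / 2⌋₊ with hydef
  have hK0 : (0:ℝ) < K := by
    have : 0 < K := by omega
    exact_mod_cast this
  have hy0 : (0:ℝ) < y := by
    have : 0 < y := by omega
    exact_mod_cast this
  have hlogy0 : 0 < Real.log y := Real.log_pos (by exact_mod_cast (show 1 < y by omega))
  have hyle : (y:ℝ) ≤ Real.log K / 2 := Nat.floor_le (by linarith)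
  have hyge : Real.log K / 4 ≤ y := by
    have := Nat.lt_floor_add_one (Real.log (K:ℝ) / 2)
    rw [← hydef] at this
    linarith
  have h4y : (4:ℝ) ^ y ≤ K := by
    have h1 : (4:ℝ) ^ y = Real.exp (y * Real.log 4) := by
      rw [mul_comm, Real.exp_mul, Real.exp_log (by norm_num), Real.rpow_natCast]
    have h2 : Real.log 4 = 2 * Real.log 2 := by
      rw [show (4:ℝ) = 2 ^ 2 by norm_num, Real.log_pow]
      norm_num
    have h3 : Real.log 2 ≤ 1 := by linarith [Real.log_two_lt_d9]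
    have h3' : 0 ≤ Real.log 2 := by linarith [Real.log_two_gt_d9]
    rw [h1, h2]
    calc Real.exp (y * (2 * Real.log 2)) ≤ Real.exp (Real.log K / 2 * (2 * 1)) := by
          apply Real.exp_le_exp.mpr
          gcongr
      _ = K := by
          rw [show Real.log K / 2 * (2 * 1) = Real.log K by ring, Real.exp_log hK0]
  -- the tail factor
  have htail : Real.exp (2 * Kc / y * ((m + 1) * Real.log K / Real.log y)) ≤ 1 + ε' := by
    rw [← Real.le_log_iff_exp_le (by linarith)]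
    have h1 : 8 * Kc * (m + 1) ≤ Real.log y * Real.log (1 + ε') := by
      rwa [div_le_iff₀ hlogε] at hK4
    calc 2 * Kc / y * ((m + 1) * Real.log K / Real.log y)
        = (2 * Kc * (m + 1) / Real.log y) * (Real.log K / y) := by
          field_simp
      _ ≤ (2 * Kc * (m + 1) / Real.log y) * 4 := by
          apply mul_le_mul_of_nonneg_left _ (by positivity)
          rw [div_le_iff₀ hy0]
          linarith
      _ = 8 * Kc * (m + 1) / Real.log y := by ring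
      _ ≤ Real.log (1 + ε') := by
          rw [div_le_iff₀ hlogy0]
          linarith
  have hpt : ∀ w ∈ prs k0 K, gd Kc z H (nd (pv f w.1) (pv f w.2)) - 1
      ≤ (1 + ε') * (gd Kc z y (nd (pv f w.1) (pv f w.2)) - 1) + ε' := by
    intro w hw
    rw [mem_prs] at hw
    obtain ⟨⟨h2, h3⟩, ⟨h4, h5⟩, h6⟩ := hw
    have hne := h.pv_ne h2 h4 h6
    have hpos := nd_pos hne
    have hle := h.nd_le h2 h4 h3 h5
    have h7 := gd_tail_le Kc z y H _ hK2 hpos
    have h8 : Real.log (nd (pv f w.1) (pv f w.2)) ≤ (m + 1) * Real.log K := by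
      have h9 : Real.log (nd (pv f w.1) (pv f w.2)) ≤ Real.log ((K:ℝ) ^ (f.natDegree + 1)) := by
        apply Real.log_le_log (by exact_mod_cast hpos)
        exact_mod_cast hle
      rw [Real.log_pow] at h9
      push_cast at h9
      exact h9
    have h10 : Real.exp (2 * Kc / y * (Real.log (nd (pv f w.1) (pv f w.2)) / Real.log y)) ≤ 1 + ε' := by
      refine le_trans (Real.exp_le_exp.mpr ?_) htail
      gcongr
    have h11 := one_le_gd Kc z y (nd (pv f w.1) (pv f w.2))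
    have h12 : gd Kc z y (nd (pv f w.1) (pv f w.2)) *
        Real.exp (2 * Kc / y * (Real.log (nd (pv f w.1) (pv f w.2)) / Real.log y))
        ≤ gd Kc z y (nd (pv f w.1) (pv f w.2)) * (1 + ε') := by gcongr
    linarith
  refine (Finset.sum_le_sum hpt).trans ?_
  rw [Finset.sum_add_distrib, ← Finset.mul_sum, Finset.sum_const, nsmul_eq_mul]
  have hcard := card_prs_le k0 K h.hk0
  have hmain : ∑ w ∈ prs k0 K, (gd Kc z y (nd (pv f w.1) (pv f w.2)) - 1) ≤ ε / 4 * (K:ℝ) ^ 2 := by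
    have h1 := sum_prod_sub_one_le (prs k0 K) (fun w => nd (pv f w.1) (pv f w.2)) (primesIoc z y)
      (fun p hp => (mem_primesIoc.mp hp).2) (ww Kc) (fun p hp => one_le_ww Kc (mem_primesIoc.mp hp).2)
      (2 * (K:ℝ) ^ 2) (fun p => m / p) (by
        intro S hS
        apply h.count S
        · intro p hp
          have hp' := mem_primesIoc.mp (hS hp)
          refine ⟨hp'.2, ?_⟩
          intro hdvd
          have h2 : p ≤ f.leadingCoeff.natAbs := by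
            apply Nat.le_of_dvd
            · exact Int.natAbs_pos.mpr h.hlead.ne'
            · rwa [← Int.natCast_dvd]
          omega
        · have h2 := prod_primesIoc_le S hS
          have h3 : ((∏ p ∈ S, p : ℕ) : ℝ) ≤ K := by
            refine le_trans ?_ h4y
            exact_mod_cast h2
          exact_mod_cast h3)
    have h2 := prod_one_add_mul_le hz1 y Kc hm0
    calc ∑ w ∈ prs k0 K, (gd Kc z y (nd (pv f w.1) (pv f w.2)) - 1)
        ≤ 2 * (K:ℝ) ^ 2 * (∏ p ∈ primesIoc z y, (1 + m / p * (ww Kc p - 1)) - 1) := h1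
      _ ≤ 2 * (K:ℝ) ^ 2 * (Real.exp (m * 2 ^ (Kc + 1) / z) - 1) := by
          gcongr
      _ = (2 * (Real.exp (m * 2 ^ (Kc + 1) / z) - 1)) * (K:ℝ) ^ 2 := by ring
      _ ≤ ε / 4 * (K:ℝ) ^ 2 := by gcongr
  have hKsq : 0 ≤ (K:ℝ) ^ 2 := by positivity
  calc (1 + ε') * ∑ w ∈ prs k0 K, (gd Kc z y (nd (pv f w.1) (pv f w.2)) - 1)
        + (prs k0 K).card * ε'
      ≤ (1 + ε') * (ε / 4 * (K:ℝ) ^ 2) + (K:ℝ) ^ 2 * ε' := by gcongr
    _ = ((1 + ε / 2) * (ε / 4) + ε / 2) * (K:ℝ) ^ 2 := by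
        rw [hε']
        ring
    _ ≤ ε * (K:ℝ) ^ 2 := by
        have h3 : (1 + ε / 2) * (ε / 4) + ε / 2 ≤ ε := by nlinarith
        gcongr

/-- The pair average over polynomial values, all primes. -/
theorem poly_pair_avg_one {f : Polynomial ℤ} {k0 : ℕ} (h : PF f k0) (Kc : ℕ) :
    ∃ M : ℝ, 0 < M ∧ ∀ᶠ K : ℕ in atTop, ∀ H : ℕ,
      ∑ w ∈ prs k0 K, (gd Kc 1 H (nd (pv f w.1) (pv f w.2)) - 1) ≤ M * (K:ℝ) ^ 2 := by
  classical
  obtain ⟨z, hz1, hz⟩ := poly_pair_avg h Kc (ε := 1) (by norm_num)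
  set P0 : ℝ := ∏ p ∈ primesIoc 1 z, ww Kc p with hP0
  have hP01 : 1 ≤ P0 := Finset.one_le_prod fun p hp => one_le_ww Kc (mem_primesIoc.mp hp).2
  refine ⟨P0 * 2, by positivity, ?_⟩
  filter_upwards [hz] with K hK H
  have hpt : ∀ w ∈ prs k0 K, gd Kc 1 H (nd (pv f w.1) (pv f w.2)) - 1
      ≤ P0 * (gd Kc z H (nd (pv f w.1) (pv f w.2)) - 1) + P0 := by
    intro w _
    have := gd_one_le Kc z H (nd (pv f w.1) (pv f w.2))
    linarith
  refine (Finset.sum_le_sum hpt).trans ?_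
  rw [Finset.sum_add_distrib, ← Finset.mul_sum, Finset.sum_const, nsmul_eq_mul]
  have hcard := card_prs_le k0 K h.hk0
  have h1 := hK H
  calc P0 * ∑ w ∈ prs k0 K, (gd Kc z H (nd (pv f w.1) (pv f w.2)) - 1) + (prs k0 K).card * P0
      ≤ P0 * (1 * (K:ℝ) ^ 2) + (K:ℝ) ^ 2 * P0 := by gcongr
    _ = P0 * 2 * (K:ℝ) ^ 2 := by ring

end Pool.Agent.HL2
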