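import Pool.Agent.Lib.HL2.PolyAvg

/-!
# The positive proportion theorem for polynomial shifts
-/

set_option autoImplicit false

open Finset Filter Topology

namespace Pool.Agent.HL2

open Pool.Agent.Lib.Sieve4 Pool.Agent.HL

/-- Sum over an image of a nonnegative function. -/
lemma sum_le_sum_of_surj {α β : Type*} [DecidableEq β] (s : Finset α) (t : Finset β) (φ : α → β)
    (g : β → ℝ) (hg : ∀ b, 0 ≤ g b) (h : ∀ b ∈ t, ∃ a ∈ s, φ a = b) :
    ∑ b ∈ t, g b ≤ ∑ a ∈ s, g (φ a) := by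
  classical
  rcases t.eq_empty_or_nonempty with rfl | ⟨b0, hb0⟩
  · rw [Finset.sum_empty]
    exact Finset.sum_nonneg fun a _ => hg _
  obtain ⟨a0, _, _⟩ := h b0 hb0
  have : Nonempty α := ⟨a0⟩
  choose! ψ hψ1 hψ2 using h
  have hinj : Set.InjOn ψ t := by
    intro a ha b hb hab
    rw [← hψ2 a ha, ← hψ2 b hb, hab]
  calc ∑ b ∈ t, g b = ∑ b ∈ t, g (φ (ψ b)) := Finset.sum_congr rfl fun b hb => by rw [hψ2 b hb]
    _ = ∑ a ∈ t.image ψ, g (φ a) := (Finset.sum_image (f := fun a => g (φ a)) hinj).symm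
    _ ≤ ∑ a ∈ s, g (φ a) := by
        apply Finset.sum_le_sum_of_subset_of_nonneg
        · intro a ha
          obtain ⟨b, hb, rfl⟩ := mem_image.mp ha
          exact hψ1 b hb
        · intro a _ _
          exact hg _

/-- The pair average over a dense subset. -/
lemma pair_subset {f : Polynomial ℤ} {k0 : ℕ} (Kc z K H : ℕ) (E : Finset ℕ)
    (hE : ∀ k ∈ E, k0 ≤ k ∧ k ≤ K) {κ A : ℝ} (hκ : 0 < κ) (hκE : κ * K ≤ ((E.image (pv f)).card : ℝ))
    (hA : 0 ≤ A)
    (hsum : ∑ w ∈ prs k0 K, (gd Kc z H (nd (pv f w.1) (pv f w.2)) - 1) ≤ A * (K:ℝ) ^ 2) :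
    ∑ u ∈ E.image (pv f), ∑ v ∈ (E.image (pv f)).filter (fun v => v ≠ u), (gd Kc z H (nd u v) - 1)
      ≤ A / κ ^ 2 * ((E.image (pv f)).card : ℝ) ^ 2 := by
  classical
  set B := E.image (pv f) with hB
  have h1 : ∑ u ∈ B, ∑ v ∈ B.filter (fun v => v ≠ u), (gd Kc z H (nd u v) - 1)
      = ∑ w ∈ (B ×ˢ B).filter (fun w => w.2 ≠ w.1), (gd Kc z H (nd w.1 w.2) - 1) := by
    rw [Finset.sum_filter, Finset.sum_product]
    refine Finset.sum_congr rfl fun u _ => ?_
    rw [Finset.sum_filter]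
  rw [h1]
  have h2 := sum_le_sum_of_surj (prs k0 K) ((B ×ˢ B).filter (fun w => w.2 ≠ w.1))
    (fun w => (pv f w.1, pv f w.2)) (fun w => gd Kc z H (nd w.1 w.2) - 1)
    (fun w => by
      have := one_le_gd Kc z H (nd w.1 w.2)
      linarith)
    (by
      intro w hw
      rw [mem_filter, mem_product] at hw
      obtain ⟨⟨hw1, hw2⟩, hne⟩ := hw
      rw [hB, mem_image] at hw1 hw2
      obtain ⟨k, hk, hk'⟩ := hw1
      obtain ⟨l, hl, hl'⟩ := hw2
      refine ⟨(k, l), ?_, ?_⟩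
      · rw [mem_prs]
        refine ⟨hE k hk, hE l hl, ?_⟩
        intro hkl
        apply hne
        rw [← hk', ← hl']
        simp only at hkl
        rw [hkl]
      · exact Prod.ext hk' hl')
  refine h2.trans (hsum.trans ?_)
  have h3 : (κ * K) ^ 2 ≤ (B.card : ℝ) ^ 2 := pow_le_pow_left₀ (by positivity) hκE 2
  calc A * (K:ℝ) ^ 2 = A / κ ^ 2 * (κ * K) ^ 2 := by
        field_simp
    _ ≤ A / κ ^ 2 * (B.card : ℝ) ^ 2 := by gcongr

set_option maxHeartbeats 4000000 in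
/-- The positive proportion theorem for polynomial shifts. -/
theorem poly_positive_proportion (f : Polynomial ℤ) {k0 : ℕ} (hf : PF f k0) (r : ℕ) (hr : 2 ≤ r)
    {ρ : ℝ} (hρ0 : 0 < ρ) (hρ : ρ < 1) {κ : ℝ} (hκ : 0 < κ) :
    ∃ C δ ξ : ℝ, 0 < C ∧ 0 < δ ∧ 0 < ξ ∧ ∀ᶠ x : ℕ in atTop, ∀ c d K : ℕ, ∀ E : Finset ℕ, 1 ≤ d →
      E ⊆ Icc 1 K → C * Real.log x ≤ K →
      ((c + d * f.eval (K:ℤ) : ℤ) : ℝ) * Real.log x ≤ ξ * x → κ * K ≤ E.card →
      ∃ G : Finset (Fin r → ℕ), δ * (K:ℝ) ^ r ≤ G.card ∧ ∀ k ∈ G,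
        (∀ i, k i ∈ E) ∧ (∀ i, k0 ≤ k i) ∧ Function.Injective k ∧
        Adm (shift c d (fun i => pv f (k i))) ∧
        ρ * SS (shift c d (fun i => pv f (k i))) * (x / Real.log x ^ r)
          ≤ tcount (shift c d (fun i => pv f (k i))) x := by
  classical
  set κ1 : ℝ := κ / 2 with hκ1
  have hκ10 : 0 < κ1 := by positivity
  obtain ⟨M, hM0, hM⟩ := poly_pair_avg_one hf (FE r)
  obtain ⟨η, δ0, hη, hδ0, hgen⟩ := general_positive_proportion r hr hρ0 hρ
    (M1 := M / κ1 ^ 2 + 1) (by positivity)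
  obtain ⟨z, hz1, hz⟩ := poly_pair_avg hf (FE r) (ε := η * κ1 ^ 2) (by positivity)
  obtain ⟨L, ξ, hL, hξ, hx⟩ := hgen z
  obtain ⟨K1, hK1⟩ := eventually_atTop.mp (hM.and (hz.and (eventually_ge_atTop k0)))
  set C : ℝ := max (L / κ1) (max K1 (2 * k0 / κ)) with hC
  have hC0 : 0 < C := lt_of_lt_of_le (by positivity) (le_max_left _ _)
  refine ⟨C, δ0 * κ1 ^ r, ξ, hC0, by positivity, hξ, ?_⟩
  filter_upwards [hx, eventually_ge_atTop 3] with x hx1 hx3 c d K E hd hE hCK hcd hκE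
  have hx0 : (0:ℝ) < x := by
    have : 0 < x := by omega
    exact_mod_cast this
  have hlog1 : 1 ≤ Real.log x := by
    rw [Real.le_log_iff_exp_le hx0]
    have h3 : (3:ℝ) ≤ x := by exact_mod_cast hx3
    linarith [Real.exp_one_lt_d9]
  have hCK1 : C ≤ K := le_trans (by nlinarith) hCK
  have hKK1 : K1 ≤ K := by
    have h1 : (K1:ℝ) ≤ K := le_trans ((le_max_left _ _).trans (le_max_right _ _)) hCK1
    exact_mod_cast h1
  obtain ⟨hMK, hzK, hk0K⟩ := hK1 K hKK1
  have hKk0 : (k0:ℝ) ≤ κ / 2 * K := by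
    have h1 : 2 * k0 / κ ≤ (K:ℝ) := le_trans ((le_max_right _ _).trans (le_max_right _ _)) hCK1
    rw [div_le_iff₀ hκ] at h1
    linarith
  -- the truncated set
  set E' := E.filter (fun k => k0 ≤ k) with hE'
  have hE'mem : ∀ k ∈ E', k0 ≤ k ∧ k ≤ K := by
    intro k hk
    rw [hE', mem_filter] at hk
    exact ⟨hk.2, (mem_Icc.mp (hE hk.1)).2⟩
  have hE'card : κ1 * K ≤ (E'.card : ℝ) := by
    have h1 : E.card ≤ E'.card + k0 := by
      have h2 : E ⊆ E' ∪ range k0 := by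
        intro k hk
        rw [mem_union, hE', mem_filter, mem_range]
        by_cases h3 : k0 ≤ k
        · exact Or.inl ⟨hk, h3⟩
        · exact Or.inr (by omega)
      have h4 := (Finset.card_le_card h2).trans (Finset.card_union_le _ _)
      rwa [card_range] at h4
    have h2 : (E.card : ℝ) ≤ E'.card + k0 := by exact_mod_cast h1
    rw [hκ1]
    linarith
  set B := E'.image (pv f) with hB
  have hinjE' : Set.InjOn (pv f) E' := by
    intro k hk l hl hkl
    by_contra hne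
    exact hf.pv_ne (hE'mem k hk).1 (hE'mem l hl).1 hne hkl
  have hBcard : B.card = E'.card := Finset.card_image_of_injOn hinjE'
  have hκB : κ1 * K ≤ (B.card : ℝ) := by rw [hBcard]; exact hE'card
  set H := pv f K with hH
  have hBH : B ⊆ Icc 1 H := by
    intro b hb
    rw [hB, mem_image] at hb
    obtain ⟨k, hk, rfl⟩ := hb
    rw [mem_Icc]
    exact ⟨hf.pv_pos (hE'mem k hk).1, hf.pv_le (hE'mem k hk).1 (hE'mem k hk).2⟩
  have hLB : L * Real.log x ≤ B.card := by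
    refine le_trans ?_ hκB
    have h2 : L / κ1 ≤ C := le_max_left _ _
    have h3 : L / κ1 * Real.log x ≤ K := le_trans (by gcongr) hCK
    calc L * Real.log x = κ1 * (L / κ1 * Real.log x) := by field_simp
      _ ≤ κ1 * K := by gcongr
  have hcd' : ((c + d * H : ℕ) : ℝ) * Real.log x ≤ ξ * x := by
    have h1 : ((c + d * H : ℕ) : ℝ) = ((c + d * f.eval (K:ℤ) : ℤ) : ℝ) := by
      have h2 : ((c + d * H : ℕ) : ℤ) = c + d * f.eval (K:ℤ) := by
        push_cast
        rw [hH, hf.pv_cast hk0K]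
      rw [← h2]
      push_cast
      rfl
    rw [h1]
    exact hcd
  have hp1 := pair_subset (f := f) (FE r) 1 K H E' hE'mem hκ10 hκB hM0.le (hMK H)
  have hp2 := pair_subset (f := f) (FE r) z K H E' hE'mem hκ10 hκB (by positivity) (hzK H)
  have hs1 := sum_PP_sq_le' hr 1 H B hp1
  have hs2 := sum_PP_sub_one_sq_le' hr z H B hp2
  have e1 : η * κ1 ^ 2 / κ1 ^ 2 = η := by field_simp
  rw [e1] at hs2
  obtain ⟨G0, hG0, hG0card, hG0all⟩ := hx1 c d H B hd hBH hLB hcd' hs1 hs2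
  set G := (Fintype.piFinset (fun _ : Fin r => E')).filter
    (fun k => (fun i => pv f (k i)) ∈ G0) with hG
  refine ⟨G, ?_, ?_⟩
  · have h1 : G0 ⊆ G.image (fun k => fun i => pv f (k i)) := by
      intro b hb
      have hb1 := (mem_injTuples.mp (hG0 hb)).1
      have hch : ∀ i, ∃ k ∈ E', pv f k = b i := fun i => mem_image.mp (hb1 i)
      choose k hkE hk using hch
      have hkb : (fun i => pv f (k i)) = b := funext hk
      rw [mem_image]
      refine ⟨k, ?_, hkb⟩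
      rw [hG, mem_filter, Fintype.mem_piFinset]
      refine ⟨hkE, ?_⟩
      rw [hkb]
      exact hb
    have h2 : G0.card ≤ G.card := (Finset.card_le_card h1).trans Finset.card_image_le
    have h3 : (G0.card : ℝ) ≤ G.card := by exact_mod_cast h2
    refine le_trans ?_ (hG0card.trans h3)
    have h4 : (κ1 * K) ^ r ≤ (B.card : ℝ) ^ r := pow_le_pow_left₀ (by positivity) hκB r
    calc δ0 * κ1 ^ r * (K:ℝ) ^ r = δ0 * (κ1 * K) ^ r := by rw [mul_pow]; ring
      _ ≤ δ0 * (B.card : ℝ) ^ r := by gcongr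
  · intro k hk
    rw [hG, mem_filter, Fintype.mem_piFinset] at hk
    obtain ⟨hk1, hk2⟩ := hk
    have h1 := hG0all _ hk2
    have h2 := (mem_injTuples.mp (hG0 hk2)).2
    refine ⟨fun i => (mem_filter.mp (hk1 i)).1, fun i => (mem_filter.mp (hk1 i)).2, ?_, h1.1, h1.2⟩
    intro i j hij
    apply h2
    simp only [hij]

end Pool.Agent.HL2
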