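import Pool.Agent.Lib.HL2.General
import Pool.Agent.Lib.HL.Extreme

/-!
# Pair averages for sequences with few solutions of congruences
-/

set_option autoImplicit false

open Finset Filter Topology

namespace Pool.Agent.HL2

open Pool.Agent.Lib.Sieve4 Pool.Agent.HL

/-- Average of a product over primes minus one, for a family with few members divisible by each
squarefree number. -/
lemma sum_prod_sub_one_le {ι : Type*} (I : Finset ι) (h : ι → ℕ) (P : Finset ℕ)
    (hP : ∀ p ∈ P, p.Prime) (W : ℕ → ℝ) (hW : ∀ p ∈ P, 1 ≤ W p) (A : ℝ) (g : ℕ → ℝ)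
    (hcount : ∀ S ⊆ P, ((I.filter (fun i => (∏ p ∈ S, p) ∣ h i)).card : ℝ) ≤ A * ∏ p ∈ S, g p) :
    ∑ i ∈ I, ((∏ p ∈ P, (if p ∣ h i then W p else 1)) - 1)
      ≤ A * (∏ p ∈ P, (1 + g p * (W p - 1)) - 1) := by
  classical
  have e1 : ∀ i, (∏ p ∈ P, (if p ∣ h i then W p else 1)) - 1
      = ∑ T ∈ P.powerset.erase ∅, ∏ p ∈ T, (if p ∣ h i then W p - 1 else 0) := by
    intro i
    have e2 : ∏ p ∈ P, (if p ∣ h i then W p else 1)
        = ∑ T ∈ P.powerset, ∏ p ∈ T, (if p ∣ h i then W p - 1 else 0) := by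
      rw [← Finset.prod_one_add]
      refine Finset.prod_congr rfl fun p _ => ?_
      split_ifs <;> ring
    rw [e2, ← Finset.add_sum_erase _ _ (Finset.empty_mem_powerset P)]
    simp
  have e3 : ∏ p ∈ P, (1 + g p * (W p - 1)) - 1
      = ∑ T ∈ P.powerset.erase ∅, ∏ p ∈ T, (g p * (W p - 1)) := by
    rw [Finset.prod_one_add, ← Finset.add_sum_erase _ _ (Finset.empty_mem_powerset P)]
    simp
  simp_rw [e1]
  rw [Finset.sum_comm, e3, Finset.mul_sum]
  refine Finset.sum_le_sum fun T hT => ?_
  rw [mem_erase, mem_powerset] at hT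
  have hT2 := hT.2
  have e2 : ∀ i, ∏ p ∈ T, (if p ∣ h i then W p - 1 else 0)
      = if (∏ p ∈ T, p) ∣ h i then ∏ p ∈ T, (W p - 1) else 0 := by
    intro i
    by_cases hd : (∏ p ∈ T, p) ∣ h i
    · rw [if_pos hd]
      refine Finset.prod_congr rfl fun p hp => ?_
      rw [if_pos ((Finset.dvd_prod_of_mem _ hp).trans hd)]
    · rw [if_neg hd]
      have : ∃ p ∈ T, ¬ p ∣ h i := by
        by_contra hcon
        push Not at hcon
        apply hd
        exact Finset.prod_primes_dvd (h i) (fun p hp => (hP p (hT2 hp)).prime) hcon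
      obtain ⟨p, hp, hpd⟩ := this
      exact Finset.prod_eq_zero hp (if_neg hpd)
  simp_rw [e2]
  rw [← Finset.sum_filter, Finset.sum_const, nsmul_eq_mul]
  have h2 : 0 ≤ ∏ p ∈ T, (W p - 1) := Finset.prod_nonneg fun p hp => by
    have := hW p (hT2 hp)
    linarith
  calc ((I.filter (fun i => (∏ p ∈ T, p) ∣ h i)).card : ℝ) * ∏ p ∈ T, (W p - 1)
      ≤ (A * ∏ p ∈ T, g p) * ∏ p ∈ T, (W p - 1) := by
        have := hcount T hT2
        gcongr
    _ = A * ∏ p ∈ T, (g p * (W p - 1)) := by
        rw [Finset.prod_mul_distrib]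
        ring

/-- Splitting off the large primes in `gd`. -/
lemma gd_tail_le (K z y H h : ℕ) (hy : 2 ≤ y) (hh : 0 < h) :
    gd K z H h ≤ gd K z y h * Real.exp (2 * K / y * (Real.log h / Real.log y)) := by
  classical
  have hy0 : (0:ℝ) < y := by
    have : 0 < y := by omega
    exact_mod_cast this
  have hlogy : 0 < Real.log y := Real.log_pos (by exact_mod_cast (show 1 < y by omega))
  have hdisj : Disjoint (primesIoc z y) (primesIoc y H) := by
    rw [Finset.disjoint_left]
    intro p h1 h2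
    rw [mem_primesIoc] at h1 h2
    omega
  have hsub : primesIoc z H ⊆ primesIoc z y ∪ primesIoc y H := by
    intro p hp
    rw [mem_union, mem_primesIoc, mem_primesIoc]
    rw [mem_primesIoc] at hp
    by_cases h1 : p ≤ y
    · exact Or.inl ⟨⟨hp.1.1, h1⟩, hp.2⟩
    · exact Or.inr ⟨⟨by omega, hp.1.2⟩, hp.2⟩
  have hone : ∀ p, p.Prime → 1 ≤ (if p ∣ h then ww K p else 1) := by
    intro p hp
    split_ifs
    · exact one_le_ww K hp
    · exact le_rfl
  have h1 : gd K z H h ≤ gd K z y h * gd K y H h := by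
    unfold gd
    rw [← Finset.prod_union hdisj]
    apply Finset.prod_le_prod_of_subset_of_one_le hsub
    · intro p hp
      exact zero_le_one.trans (hone p (mem_primesIoc.mp hp).2)
    · intro p hp _
      rcases mem_union.mp hp with h3 | h3
      · exact hone p (mem_primesIoc.mp h3).2
      · exact hone p (mem_primesIoc.mp h3).2
  refine h1.trans ?_
  apply mul_le_mul_of_nonneg_left _ (zero_le_one.trans (one_le_gd _ _ _ _))
  set F := (primesIoc y H).filter (fun p => p ∣ h) with hF
  have e1 : gd K y H h = ∏ p ∈ F, ww K p := by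
    unfold gd
    rw [hF, Finset.prod_filter]
  have hdvd : ∏ p ∈ F, p ∣ h := by
    apply Finset.prod_primes_dvd
    · intro p hp
      exact (mem_primesIoc.mp (mem_filter.mp hp).1).2.prime
    · intro p hp
      exact (mem_filter.mp hp).2
  have hle : y ^ F.card ≤ h := by
    refine le_trans ?_ (Nat.le_of_dvd hh hdvd)
    apply Finset.pow_card_le_prod
    intro p hp
    exact (mem_primesIoc.mp (mem_filter.mp hp).1).1.1.le
  have hcard : (F.card : ℝ) ≤ Real.log h / Real.log y := by
    rw [le_div_iff₀ hlogy, ← Real.log_pow]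
    apply Real.log_le_log (by positivity)
    exact_mod_cast hle
  have h4 : ∀ p ∈ F, ww K p ≤ Real.exp (2 * K / y) := by
    intro p hp
    have hp' := mem_primesIoc.mp (mem_filter.mp hp).1
    refine (ww_le_exp K hp'.2).trans ?_
    apply Real.exp_le_exp.mpr
    have h5 : (y:ℝ) ≤ p := by exact_mod_cast hp'.1.1.le
    gcongr
  rw [e1]
  calc ∏ p ∈ F, ww K p ≤ ∏ p ∈ F, Real.exp (2 * K / y) := by
        apply Finset.prod_le_prod
        · intro p hp
          exact zero_le_one.trans (one_le_ww _ (mem_primesIoc.mp (mem_filter.mp hp).1).2)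
        · exact h4
    _ = Real.exp (2 * K / y * F.card) := by
        rw [Finset.prod_const, ← Real.exp_nat_mul]
        congr 1
        ring
    _ ≤ _ := by
        apply Real.exp_le_exp.mpr
        gcongr

/-- Comparison of `gd` from `1` and from `z`. -/
lemma gd_one_le (K z H h : ℕ) :
    gd K 1 H h ≤ (∏ p ∈ primesIoc 1 z, ww K p) * gd K z H h := by
  classical
  have hone : ∀ p, p.Prime → 1 ≤ (if p ∣ h then ww K p else 1) := by
    intro p hp
    split_ifs
    · exact one_le_ww K hp
    · exact le_rfl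
  have hdisj : Disjoint (primesIoc 1 z) (primesIoc z H) := by
    rw [Finset.disjoint_left]
    intro p h1 h2
    rw [mem_primesIoc] at h1 h2
    omega
  have hsub : primesIoc 1 H ⊆ primesIoc 1 z ∪ primesIoc z H := by
    intro p hp
    rw [mem_union, mem_primesIoc, mem_primesIoc]
    rw [mem_primesIoc] at hp
    by_cases h1 : p ≤ z
    · exact Or.inl ⟨⟨hp.1.1, h1⟩, hp.2⟩
    · exact Or.inr ⟨⟨by omega, hp.1.2⟩, hp.2⟩
  have h1 : gd K 1 H h ≤ gd K 1 z h * gd K z H h := by
    unfold gd
    rw [← Finset.prod_union hdisj]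
    apply Finset.prod_le_prod_of_subset_of_one_le hsub
    · intro p hp
      exact zero_le_one.trans (hone p (mem_primesIoc.mp hp).2)
    · intro p hp _
      rcases mem_union.mp hp with h3 | h3
      · exact hone p (mem_primesIoc.mp h3).2
      · exact hone p (mem_primesIoc.mp h3).2
  refine h1.trans ?_
  apply mul_le_mul_of_nonneg_right _ (zero_le_one.trans (one_le_gd _ _ _ _))
  unfold gd
  apply Finset.prod_le_prod
  · intro p hp
    exact zero_le_one.trans (hone p (mem_primesIoc.mp hp).2)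
  · intro p hp
    split_ifs
    · exact le_rfl
    · exact one_le_ww K (mem_primesIoc.mp hp).2

/-- The product in the averages. -/
lemma prod_one_add_mul_le {z : ℕ} (hz : 1 ≤ z) (H K : ℕ) {m : ℝ} (hm : 0 ≤ m) :
    ∏ p ∈ primesIoc z H, (1 + m / p * (ww K p - 1)) ≤ Real.exp (m * 2 ^ (K + 1) / z) := by
  calc ∏ p ∈ primesIoc z H, (1 + m / p * (ww K p - 1))
      ≤ ∏ p ∈ primesIoc z H, Real.exp (m * 2 ^ (K+1) * (1 / ((p:ℝ) ^ 2))) := by
        refine Finset.prod_le_prod (fun p hp => ?_) (fun p hp => ?_)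
        · have hpp : p.Prime := (mem_filter.mp hp).2
          have h1 := one_le_ww K hpp
          have h2 : (0:ℝ) ≤ m / p * (ww K p - 1) := mul_nonneg (by positivity) (by linarith)
          linarith
        · have hpp : p.Prime := (mem_filter.mp hp).2
          have hp0 : (0:ℝ) < p := by exact_mod_cast hpp.pos
          have h1 := ww_sub_one_le K hpp
          have h2 : m / p * (ww K p - 1) ≤ m * 2 ^ (K+1) * (1 / ((p:ℝ) ^ 2)) := by
            calc m / p * (ww K p - 1) ≤ m / p * (2 ^ (K + 1) / p) := by gcongr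
              _ = _ := by field_simp
          have h3 := Real.add_one_le_exp (m * 2 ^ (K+1) * (1 / ((p:ℝ) ^ 2)))
          linarith
    _ = Real.exp (m * 2 ^ (K+1) * ∑ p ∈ primesIoc z H, (1 / ((p:ℝ) ^ 2))) := by
        rw [← Real.exp_sum, Finset.mul_sum]
    _ ≤ Real.exp (m * 2 ^ (K + 1) / z) := by
        apply Real.exp_le_exp.mpr
        have h1 : ∑ p ∈ primesIoc z H, (1 / ((p:ℝ) ^ 2)) ≤ ∑ n ∈ Ioc z H, 1 / ((n:ℝ) ^ 2) :=
          Finset.sum_le_sum_of_subset_of_nonneg (Finset.filter_subset _ _) (fun _ _ _ => by positivity)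
        have h2 := h1.trans (sum_inv_sq_le hz H)
        calc m * (2:ℝ) ^ (K+1) * ∑ p ∈ primesIoc z H, (1 / ((p:ℝ) ^ 2))
            ≤ m * 2 ^ (K+1) * (1 / z) := by gcongr
          _ = _ := by ring

/-- The product of the primes in `(z, y]` is at most `4 ^ y`. -/
lemma prod_primesIoc_le {z y : ℕ} (S : Finset ℕ) (hS : S ⊆ primesIoc z y) : ∏ p ∈ S, p ≤ 4 ^ y := by
  have h1 : ∏ p ∈ S, p ≤ primorial y := by
    unfold primorial
    apply Finset.prod_le_prod_of_subset_of_one_le'
    · intro p hp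
      have := mem_primesIoc.mp (hS hp)
      rw [mem_filter, mem_range]
      exact ⟨by omega, this.2⟩
    · intro p hp _
      exact (mem_filter.mp hp).2.one_lt.le
  exact h1.trans (primorial_le_four_pow y)

end Pool.Agent.HL2
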