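import Pool.Agent.Lib.HL2.PolyPairs

/-!
# Congruences for polynomial values
-/

set_option autoImplicit false

open Finset Filter Topology

namespace Pool.Agent.HL2

open Pool.Agent.Lib.Sieve4 Pool.Agent.HL

/-- At most `deg f` roots of `f = a` modulo a prime not dividing the leading coefficient. -/
lemma card_roots_mod (f : Polynomial ℤ) (hdeg : 1 ≤ f.natDegree) {p : ℕ} (hp : p.Prime)
    (hlc : ¬ (p:ℤ) ∣ f.leadingCoeff) (a : ℤ) :
    ((range p).filter (fun t : ℕ => (p:ℤ) ∣ f.eval (t:ℤ) - a)).card ≤ f.natDegree := by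
  classical
  have : Fact p.Prime := ⟨hp⟩
  set g := f.map (Int.castRingHom (ZMod p)) with hg
  have hlc' : (Int.castRingHom (ZMod p)) f.leadingCoeff ≠ 0 := by
    intro h
    apply hlc
    exact (ZMod.intCast_zmod_eq_zero_iff_dvd _ _).mp h
  have hnd : g.natDegree = f.natDegree := Polynomial.natDegree_map_of_leadingCoeff_ne_zero _ hlc'
  have hg0 : 0 < g.degree := by
    rw [← Polynomial.natDegree_pos_iff_degree_pos, hnd]
    omega
  have hroots := Polynomial.card_roots_sub_C' (p := g) (a := ((a : ℤ) : ZMod p)) hg0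
  rw [hnd] at hroots
  refine le_trans ?_ hroots
  refine le_trans ?_ (Multiset.toFinset_card_le _)
  refine Finset.card_le_card_of_injOn (fun t : ℕ => (t : ZMod p)) ?_ ?_
  · intro t ht
    rw [mem_coe, mem_filter] at ht
    rw [mem_coe, Multiset.mem_toFinset, Polynomial.mem_roots (by
      intro h0
      rw [sub_eq_zero] at h0
      rw [h0] at hg0
      exact absurd hg0 (not_lt.mpr Polynomial.degree_C_le))]
    rw [Polynomial.IsRoot, Polynomial.eval_sub, Polynomial.eval_C]
    have h1 := (ZMod.intCast_zmod_eq_zero_iff_dvd (f.eval (t:ℤ) - a) p).mpr ht.2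
    rw [Int.cast_sub] at h1
    have h2 : Polynomial.eval ((t:ℕ) : ZMod p) g = ((f.eval (t:ℤ) : ℤ) : ZMod p) := by
      rw [hg]
      have h3 := Polynomial.eval_intCast_map (Int.castRingHom (ZMod p)) f (t:ℤ)
      simp only [Int.cast_natCast] at h3
      rw [h3]
      rfl
    rw [h2]
    exact h1
  · intro s hs t ht hst
    rw [mem_coe, mem_filter, mem_range] at hs ht
    have h1 := (ZMod.natCast_eq_natCast_iff' s t p).mp hst
    rwa [Nat.mod_eq_of_lt hs.1, Nat.mod_eq_of_lt ht.1] at h1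

/-- Solutions of a congruence modulo a squarefree number. -/
lemma card_sols (f : Polynomial ℤ) (hdeg : 1 ≤ f.natDegree) (S : Finset ℕ)
    (hS : ∀ p ∈ S, p.Prime ∧ ¬ (p:ℤ) ∣ f.leadingCoeff) (a : ℤ) :
    ((range (∏ p ∈ S, p)).filter (fun t : ℕ => ((∏ p ∈ S, p : ℕ):ℤ) ∣ f.eval (t:ℤ) - a)).card
      ≤ f.natDegree ^ S.card := by
  classical
  set R : (p : ℕ) → p ∈ S → Finset ℕ := fun p _ => (range p).filter (fun t : ℕ => (p:ℤ) ∣ f.eval (t:ℤ) - a) with hR
  have h1 : ((range (∏ p ∈ S, p)).filter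
      (fun t : ℕ => ((∏ p ∈ S, p : ℕ):ℤ) ∣ f.eval (t:ℤ) - a)).card
      ≤ (S.pi (fun p => (range p).filter (fun t : ℕ => (p:ℤ) ∣ f.eval (t:ℤ) - a))).card := by
    refine Finset.card_le_card_of_injOn (fun t : ℕ => fun p _ => t % p) ?_ ?_
    · intro t ht
      rw [mem_coe, mem_filter] at ht
      rw [mem_coe, Finset.mem_pi]
      intro p hp
      rw [mem_filter, mem_range]
      refine ⟨Nat.mod_lt _ (hS p hp).1.pos, ?_⟩
      have h2 : (p:ℤ) ∣ f.eval (t:ℤ) - a := by
        refine dvd_trans ?_ ht.2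
        exact_mod_cast Finset.dvd_prod_of_mem (fun p : ℕ => p) hp
      have h3 : (p:ℤ) ∣ (t:ℤ) - ((t % p : ℕ) : ℤ) := by
        rw [Int.natCast_mod]
        exact Int.dvd_self_sub_emod
      have h4 : (p:ℤ) ∣ f.eval (t:ℤ) - f.eval ((t % p : ℕ) : ℤ) :=
        h3.trans (Polynomial.sub_dvd_eval_sub _ _ f)
      have h5 := dvd_sub h2 h4
      have e : f.eval (t:ℤ) - a - (f.eval (t:ℤ) - f.eval ((t % p : ℕ) : ℤ))
          = f.eval ((t % p : ℕ) : ℤ) - a := by ring
      rwa [e] at h5
    · intro s hs t ht hst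
      rw [mem_coe, mem_filter, mem_range] at hs ht
      have h2 : ∀ p ∈ S, s ≡ t [MOD p] := by
        intro p hp
        exact congrFun (congrFun hst p) hp
      have h3 : s ≡ t [MOD ∏ p ∈ S, p] := by
        rcases le_total s t with hst' | hst'
        · rw [Nat.modEq_iff_dvd' hst']
          exact Finset.prod_primes_dvd _ (fun p hp => (hS p hp).1.prime)
            (fun p hp => (Nat.modEq_iff_dvd' hst').mp (h2 p hp))
        · symm
          rw [Nat.modEq_iff_dvd' hst']
          exact Finset.prod_primes_dvd _ (fun p hp => (hS p hp).1.prime)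
            (fun p hp => (Nat.modEq_iff_dvd' hst').mp (h2 p hp).symm)
      unfold Nat.ModEq at h3
      rwa [Nat.mod_eq_of_lt hs.1, Nat.mod_eq_of_lt ht.1] at h3
  refine h1.trans ?_
  rw [Finset.card_pi]
  exact Finset.prod_le_pow_card _ _ _ fun p hp => card_roots_mod f hdeg (hS p hp).1 (hS p hp).2 a

/-- Solutions of a congruence modulo a squarefree number in an interval. -/
lemma card_sols_Icc (f : Polynomial ℤ) (hdeg : 1 ≤ f.natDegree) (S : Finset ℕ)
    (hS : ∀ p ∈ S, p.Prime ∧ ¬ (p:ℤ) ∣ f.leadingCoeff) (a : ℤ) (K : ℕ) :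
    ((Icc 1 K).filter (fun t : ℕ => ((∏ p ∈ S, p : ℕ):ℤ) ∣ f.eval (t:ℤ) - a)).card
      ≤ (K / (∏ p ∈ S, p) + 1) * f.natDegree ^ S.card := by
  classical
  set D := ∏ p ∈ S, p with hD
  have hDpos : 0 < D := Finset.prod_pos fun p hp => (hS p hp).1.pos
  have h1 : ((Icc 1 K).filter (fun t : ℕ => (D:ℤ) ∣ f.eval (t:ℤ) - a)).card
      ≤ (range (K / D + 1) ×ˢ ((range D).filter (fun t : ℕ => (D:ℤ) ∣ f.eval (t:ℤ) - a))).card := by
    refine Finset.card_le_card_of_injOn (fun t : ℕ => (t / D, t % D)) ?_ ?_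
    · intro t ht
      rw [mem_coe, mem_filter, mem_Icc] at ht
      rw [mem_coe, mem_product, mem_range, mem_filter, mem_range]
      refine ⟨?_, Nat.mod_lt _ hDpos, ?_⟩
      · exact Nat.lt_succ_of_le (Nat.div_le_div_right ht.1.2)
      · have h3 : (D:ℤ) ∣ (t:ℤ) - ((t % D : ℕ) : ℤ) := by
          rw [Int.natCast_mod]
          exact Int.dvd_self_sub_emod
        have h4 : (D:ℤ) ∣ f.eval (t:ℤ) - f.eval ((t % D : ℕ) : ℤ) :=
          h3.trans (Polynomial.sub_dvd_eval_sub _ _ f)
        have h5 := dvd_sub ht.2 h4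
        have e : f.eval (t:ℤ) - a - (f.eval (t:ℤ) - f.eval ((t % D : ℕ) : ℤ))
            = f.eval ((t % D : ℕ) : ℤ) - a := by ring
        rwa [e] at h5
    · intro s _ t _ hst
      have h2 := congrArg Prod.fst hst
      have h3 := congrArg Prod.snd hst
      simp only at h2 h3
      rw [← Nat.div_add_mod s D, ← Nat.div_add_mod t D, h2, h3]
  refine h1.trans ?_
  rw [Finset.card_product, card_range]
  exact Nat.mul_le_mul_left _ (card_sols f hdeg S hS a)

/-- The value of the polynomial as a natural number. -/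
def pv (f : Polynomial ℤ) (k : ℕ) : ℕ := (f.eval (k:ℤ)).toNat

/-- Growth and monotonicity of polynomial values. -/
lemma poly_facts (f : Polynomial ℤ) (hdeg : 2 ≤ f.natDegree) (hlead : 0 < f.leadingCoeff) :
    ∃ k0 : ℕ, 1 ≤ k0 ∧ (∀ k l : ℕ, k0 ≤ k → k < l → f.eval (k:ℤ) < f.eval (l:ℤ)) ∧
      (∀ k : ℕ, k0 ≤ k → 0 < f.eval (k:ℤ)) ∧
      (∀ k : ℕ, k0 ≤ k → f.eval (k:ℤ) ≤ (k:ℤ) ^ (f.natDegree + 1)) := by
  set P : Polynomial ℝ := f.map (Int.castRingHom ℝ) with hP
  have hinj : Function.Injective (Int.castRingHom ℝ) := by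
    intro a b h
    have : (a:ℝ) = (b:ℝ) := h
    exact_mod_cast this
  have hnd : P.natDegree = f.natDegree := Polynomial.natDegree_map_eq_of_injective hinj f
  have hlc : P.leadingCoeff = (f.leadingCoeff : ℝ) := Polynomial.leadingCoeff_map_of_injective hinj f
  have hlc0 : 0 < P.leadingCoeff := by rw [hlc]; exact_mod_cast hlead
  have heval : ∀ k : ℕ, P.eval (k:ℝ) = ((f.eval (k:ℤ) : ℤ) : ℝ) := by
    intro k
    rw [hP]
    have h3 := Polynomial.eval_intCast_map (Int.castRingHom ℝ) f (k:ℤ)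
    simp only [Int.cast_natCast] at h3
    rw [h3]
    rfl
  have hPdeg : 0 < P.degree := by
    rw [← Polynomial.natDegree_pos_iff_degree_pos, hnd]
    omega
  have ht1 := Polynomial.tendsto_atTop_of_leadingCoeff_nonneg P hPdeg hlc0.le
  have hPne : P ≠ 0 := by
    intro h
    rw [h] at hPdeg
    simp at hPdeg
  have hder : P.derivative.natDegree = f.natDegree - 1 := by
    rw [Polynomial.natDegree_derivative, hnd]
  have hderdeg : 0 < P.derivative.degree := by
    rw [← Polynomial.natDegree_pos_iff_degree_pos, hder]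
    omega
  have hderlc : 0 ≤ P.derivative.leadingCoeff := by
    rw [Polynomial.leadingCoeff, hder, Polynomial.coeff_derivative]
    have e : f.natDegree - 1 + 1 = P.natDegree := by rw [hnd]; omega
    rw [e]
    have : P.coeff P.natDegree = P.leadingCoeff := rfl
    rw [this]
    positivity
  have ht2 := Polynomial.tendsto_atTop_of_leadingCoeff_nonneg P.derivative hderdeg hderlc
  have ht3 : Tendsto (fun x : ℝ => P.eval x / (Polynomial.X ^ (f.natDegree + 1) : Polynomial ℝ).eval x)
      atTop (𝓝 0) := by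
    apply Polynomial.div_tendsto_atTop_zero_of_degree_lt
    rw [Polynomial.degree_X_pow, Polynomial.degree_eq_natDegree hPne, hnd]
    exact_mod_cast Nat.lt_succ_self _
  have hev := ((ht1.eventually_gt_atTop 0).and ((ht2.eventually_gt_atTop 0).and
    ((ht3.eventually_le_const (show (0:ℝ) < 1 by norm_num)).and (eventually_ge_atTop (1:ℝ)))))
  obtain ⟨X0, hX0⟩ := eventually_atTop.mp hev
  obtain ⟨k0, hk0⟩ := exists_nat_ge (max X0 1)
  have hk0X : X0 ≤ k0 := le_trans (le_max_left _ _) hk0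
  have hk01 : (1:ℝ) ≤ k0 := le_trans (le_max_right _ _) hk0
  refine ⟨k0, by exact_mod_cast hk01, ?_, ?_, ?_⟩
  · intro k l hk hkl
    have hmono : StrictMonoOn (fun x => P.eval x) (Set.Ici (k0:ℝ)) := by
      apply strictMonoOn_of_deriv_pos (convex_Ici _)
      · exact P.continuous.continuousOn
      · intro x hx
        rw [interior_Ici] at hx
        have hx' : X0 ≤ x := le_trans hk0X (le_of_lt hx)
        rw [Polynomial.deriv]
        exact (hX0 x hx').2.1
    have h1 := hmono (show (k:ℝ) ∈ Set.Ici (k0:ℝ) by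
        rw [Set.mem_Ici]; exact_mod_cast hk) (show (l:ℝ) ∈ Set.Ici (k0:ℝ) by
        rw [Set.mem_Ici]; exact_mod_cast (hk.trans hkl.le)) (by exact_mod_cast hkl)
    simp only at h1
    rw [heval, heval] at h1
    exact_mod_cast h1
  · intro k hk
    have h1 := (hX0 k (le_trans hk0X (by exact_mod_cast hk))).1
    rw [heval] at h1
    exact_mod_cast h1
  · intro k hk
    have hkk := hX0 k (le_trans hk0X (by exact_mod_cast hk))
    have h1 := hkk.2.2.1
    rw [Polynomial.eval_pow, Polynomial.eval_X, heval] at h1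
    have hk1 : (0:ℝ) < (k:ℝ) := by linarith [hkk.2.2.2]
    rw [div_le_one (by positivity)] at h1
    exact_mod_cast h1

end Pool.Agent.HL2
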