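import Pool.Agent.Lib.HL2.PairAvg

/-!
# A Romanoff-type average for the prime divisors of `g ^ j - 1`
-/

set_option autoImplicit false

open Finset

namespace Pool.Agent.HL2

open Pool.Agent.Lib.Sieve4 Pool.Agent.HL

/-- `∑_{p ≤ n} 1/p ≤ ε log n + C`. -/
lemma sum_inv_primes_le {ε : ℝ} (hε : 0 < ε) :
    ∃ C : ℝ, 0 ≤ C ∧ ∀ n : ℕ, 1 ≤ n → ∑ p ∈ Nat.primesLE n, 1 / (p:ℝ) ≤ ε * Real.log n + C := by
  classical
  obtain ⟨T, hT⟩ := exists_nat_gt (Real.exp (1 / ε))
  have hT0 : (0:ℝ) < T := (Real.exp_pos _).trans hT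
  have hTn : 1 ≤ T := by
    have : 0 < T := by exact_mod_cast hT0
    omega
  have hlogT : 1 / ε < Real.log T := by
    rw [Real.lt_log_iff_exp_lt hT0]; exact hT
  have hlogT0 : 0 < Real.log T := lt_trans (by positivity) hlogT
  refine ⟨T + ε * Real.log 4, by positivity, fun n hn => ?_⟩
  have h1 : ∀ p ∈ Nat.primesLE n, 1 / (p:ℝ) ≤ (if p ≤ T then 1 else 0) + ε * (Real.log p / p) := by
    intro p hp
    have hp2 : 2 ≤ p := Nat.two_le_of_mem_primesLE hp
    have hp0 : (0:ℝ) < p := by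
      have : 0 < p := by omega
      exact_mod_cast this
    have hlp : 0 ≤ Real.log p / p := by
      have : 0 ≤ Real.log p := Real.log_natCast_nonneg p
      positivity
    split_ifs with h
    · have h2 : 1 / (p:ℝ) ≤ 1 := by
        rw [div_le_one hp0]
        have : 1 ≤ p := by omega
        exact_mod_cast this
      have : 0 ≤ ε * (Real.log p / p) := by positivity
      linarith
    · push Not at h
      have h3 : Real.log T ≤ Real.log p := Real.log_le_log hT0 (by exact_mod_cast h.le)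
      have h4 : 1 ≤ ε * Real.log p := by
        have h5 : 1 / ε ≤ Real.log p := hlogT.le.trans h3
        rw [div_le_iff₀ hε] at h5
        linarith
      rw [zero_add, ← mul_div_assoc]
      gcongr
  have h2 := Finset.sum_le_sum h1
  rw [Finset.sum_add_distrib, ← Finset.mul_sum] at h2
  have h3 : ∑ p ∈ Nat.primesLE n, (if p ≤ T then (1:ℝ) else 0) ≤ T := by
    rw [← Finset.sum_filter, Finset.sum_const, nsmul_eq_mul, mul_one]
    have hsub : (Nat.primesLE n).filter (fun p => p ≤ T) ⊆ Icc 1 T := by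
      intro p hp
      rw [mem_filter] at hp
      have := Nat.two_le_of_mem_primesLE hp.1
      rw [mem_Icc]
      omega
    have := Finset.card_le_card hsub
    rw [Nat.card_Icc, Nat.add_sub_cancel] at this
    exact_mod_cast this
  have h4 := sum_log_div_le n hn
  have h5 : ε * ∑ p ∈ Nat.primesLE n, Real.log p / p ≤ ε * (Real.log n + Real.log 4) := by gcongr
  linarith

lemma one_div_eq_sum {o L : ℕ} (ho : 1 ≤ o) (hoL : o ≤ L) :
    1 / (o:ℝ) = ∑ m ∈ Icc 1 L, (if o ≤ m then 1 / ((m:ℝ) * (m + 1)) else 0) + 1 / ((L:ℝ) + 1) := by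
  induction L, hoL using Nat.le_induction with
  | base =>
    have e1 : ∑ m ∈ Icc 1 o, (if o ≤ m then 1 / ((m:ℝ) * (m + 1)) else 0) = 1 / ((o:ℝ) * (o + 1)) := by
      rw [Finset.sum_eq_single o]
      · simp
      · intro m hm hmo
        rw [mem_Icc] at hm
        rw [if_neg (by omega)]
      · intro h
        exact absurd (mem_Icc.mpr ⟨ho, le_rfl⟩) h
    rw [e1]
    have ho0 : (0:ℝ) < o := by
      have : 0 < o := by omega
      exact_mod_cast this
    field_simp
    ring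
  | succ L hL ih =>
    rw [ih, Finset.sum_Icc_succ_top (by omega), if_pos (by omega)]
    push_cast
    field_simp
    ring

lemma sum_inv_sqrt_le (L : ℕ) :
    ∑ m ∈ Icc 1 L, 1 / ((m:ℝ) * (m + 1)) * Real.sqrt m ≤ 2 := by
  have h : ∀ L : ℕ, ∑ m ∈ Icc 1 L, 1 / ((m:ℝ) * (m + 1)) * Real.sqrt m ≤ 2 - 2 / Real.sqrt ((L:ℝ) + 1) := by
    intro L
    induction L with
    | zero => simp
    | succ L ih =>
      rw [Finset.sum_Icc_succ_top (by omega)]
      refine le_trans (add_le_add_left ih _) ?_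
      push_cast
      set a := Real.sqrt ((L:ℝ) + 1) with ha
      set b := Real.sqrt ((L:ℝ) + 1 + 1) with hb
      have ha0 : 0 < a := Real.sqrt_pos.mpr (by positivity)
      have hb0 : 0 < b := Real.sqrt_pos.mpr (by positivity)
      have ha2 : a ^ 2 = (L:ℝ) + 1 := Real.sq_sqrt (by positivity)
      have hb2 : b ^ 2 = (L:ℝ) + 1 + 1 := Real.sq_sqrt (by positivity)
      have hab : a ≤ b := Real.sqrt_le_sqrt (by linarith)
      rw [← hb2, ← ha2]
      have key : 1 / (a ^ 2 * b ^ 2) * a ≤ 2 / a - 2 / b := by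
        have e1 : 1 / (a ^ 2 * b ^ 2) * a = 1 / (a * b ^ 2) := by
          field_simp
        have e2 : 2 / a - 2 / b = 2 * (b - a) / (a * b) := by
          field_simp
        rw [e1, e2, div_le_div_iff₀ (by positivity) (by positivity)]
        have e3 : b ^ 2 - a ^ 2 = 1 := by rw [hb2, ha2]; ring
        have e4 : (b - a) * (b + a) = 1 := by nlinarith
        -- a b ≤ 2 (b - a) a b^2
        have e5 : 1 ≤ 2 * (b - a) * b := by nlinarith
        nlinarith [mul_pos ha0 hb0]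
      linarith
  have h2 := h L
  have : 0 ≤ 2 / Real.sqrt ((L:ℝ) + 1) := by positivity
  linarith

lemma pow_sub_one_le_prod (g m : ℕ) (hg : 1 ≤ g) : ∏ t ∈ Icc 1 m, (g ^ t - 1) ≤ g ^ (m * m) := by
  calc ∏ t ∈ Icc 1 m, (g ^ t - 1) ≤ ∏ _t ∈ Icc 1 m, g ^ m := by
        refine Finset.prod_le_prod' fun t ht => ?_
        rw [mem_Icc] at ht
        exact (Nat.sub_le _ _).trans (Nat.pow_le_pow_right hg ht.2)
    _ = g ^ (m * m) := by
        rw [Finset.prod_const, Nat.card_Icc, Nat.add_sub_cancel, ← pow_mul]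

/-- Few primes have small order. -/
lemma card_small_order (g m : ℕ) (hg : 2 ≤ g) (P : Finset ℕ) (hP : ∀ p ∈ P, p.Prime)
    (ho : ∀ p ∈ P, ∃ t ∈ Icc 1 m, p ∣ g ^ t - 1) : P.card ≤ g * (m * m) := by
  classical
  have h1 : ∏ p ∈ P, p ∣ ∏ t ∈ Icc 1 m, (g ^ t - 1) := by
    apply Finset.prod_primes_dvd
    · exact fun p hp => (hP p hp).prime
    · intro p hp
      obtain ⟨t, ht, hd⟩ := ho p hp
      exact hd.trans (Finset.dvd_prod_of_mem _ ht)
  have hpos : 0 < ∏ t ∈ Icc 1 m, (g ^ t - 1) := by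
    refine Finset.prod_pos fun t ht => ?_
    rw [mem_Icc] at ht
    have : 1 < g ^ t := Nat.one_lt_pow (by omega) (by omega)
    omega
  have h2 := Nat.le_of_dvd hpos h1
  have h3 : 2 ^ P.card ≤ ∏ p ∈ P, p := Finset.pow_card_le_prod _ _ _ fun p hp => (hP p hp).two_le
  have h4 : 2 ^ P.card ≤ 2 ^ (g * (m * m)) := by
    calc 2 ^ P.card ≤ g ^ (m * m) := h3.trans (h2.trans (pow_sub_one_le_prod g m (by omega)))
      _ ≤ (2 ^ g) ^ (m * m) := Nat.pow_le_pow_left (Nat.lt_two_pow_self).le _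
      _ = _ := by rw [← pow_mul]
  exact (Nat.pow_le_pow_iff_right (by omega)).mp h4

/-- The product over primes of small order. -/
lemma prod_small_order_le (g : ℕ) (hg : 2 ≤ g) {A : ℝ} (hA : 0 < A) :
    ∃ C : ℝ, 0 < C ∧ ∀ m : ℕ, 1 ≤ m → ∀ P : Finset ℕ, (∀ p ∈ P, p.Prime) →
      (∀ p ∈ P, ∃ t ∈ Icc 1 m, p ∣ g ^ t - 1) → ∏ p ∈ P, (1 + A / (p:ℝ)) ≤ C * Real.sqrt m := by
  classical
  obtain ⟨C0, hC0, hC⟩ := sum_inv_primes_le (ε := 1 / (4 * A)) (by positivity)
  refine ⟨Real.exp (A * (1 / (4 * A) * Real.log g + C0 + 1)), Real.exp_pos _, fun m hm P hP ho => ?_⟩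
  have hm0 : (0:ℝ) < m := by exact_mod_cast hm
  have hg0 : (0:ℝ) < g := by
    have : 0 < g := by omega
    exact_mod_cast this
  set y := g * (m * m) with hy
  have hy1 : 1 ≤ y := by
    rw [hy]
    have : 0 < g * (m * m) := by positivity
    omega
  have hy0 : (0:ℝ) < y := by exact_mod_cast hy1
  have hcard := card_small_order g m hg P hP ho
  have h1 : ∑ p ∈ P, 1 / (p:ℝ) ≤ 1 / (4 * A) * Real.log y + C0 + 1 := by
    rw [← Finset.sum_filter_add_sum_filter_not P (fun p => p ≤ y)]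
    have e1 : ∑ p ∈ P.filter (fun p => p ≤ y), 1 / (p:ℝ) ≤ ∑ p ∈ Nat.primesLE y, 1 / (p:ℝ) := by
      apply Finset.sum_le_sum_of_subset_of_nonneg
      · intro p hp
        rw [mem_filter] at hp
        exact Nat.mem_primesLE.mpr ⟨hp.2, hP p hp.1⟩
      · intro p _ _
        positivity
    have e2 : ∑ p ∈ P.filter (fun p => ¬ p ≤ y), 1 / (p:ℝ) ≤ 1 := by
      calc ∑ p ∈ P.filter (fun p => ¬ p ≤ y), 1 / (p:ℝ)
          ≤ ∑ p ∈ P.filter (fun p => ¬ p ≤ y), 1 / (y:ℝ) := by
            refine Finset.sum_le_sum fun p hp => ?_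
            rw [mem_filter] at hp
            push Not at hp
            apply one_div_le_one_div_of_le hy0
            exact_mod_cast hp.2.le
        _ = (P.filter (fun p => ¬ p ≤ y)).card * (1 / (y:ℝ)) := by
            rw [Finset.sum_const, nsmul_eq_mul]
        _ ≤ y * (1 / (y:ℝ)) := by
            apply mul_le_mul_of_nonneg_right _ (by positivity)
            have : (P.filter (fun p => ¬ p ≤ y)).card ≤ y :=
              (Finset.card_le_card (filter_subset _ _)).trans hcard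
            exact_mod_cast this
        _ = 1 := by field_simp
    have := hC y hy1
    linarith
  have h2 : ∏ p ∈ P, (1 + A / (p:ℝ)) ≤ Real.exp (A * ∑ p ∈ P, 1 / (p:ℝ)) := by
    rw [Finset.mul_sum, Real.exp_sum]
    refine Finset.prod_le_prod (fun p _ => by positivity) fun p _ => ?_
    have := Real.add_one_le_exp (A * (1 / (p:ℝ)))
    have e : A / (p:ℝ) = A * (1 / (p:ℝ)) := by ring
    rw [e]
    linarith
  refine h2.trans ?_
  have h3 : A * ∑ p ∈ P, 1 / (p:ℝ) ≤ A * (1 / (4 * A) * Real.log g + C0 + 1) + (1/2) * Real.log m := by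
    have h4 : Real.log y = Real.log g + 2 * Real.log m := by
      rw [hy]
      push_cast
      rw [Real.log_mul hg0.ne' (by positivity), Real.log_mul hm0.ne' hm0.ne']
      ring
    rw [h4] at h1
    have h5 := mul_le_mul_of_nonneg_left h1 hA.le
    refine h5.trans (le_of_eq ?_)
    field_simp
    ring
  calc Real.exp (A * ∑ p ∈ P, 1 / (p:ℝ))
      ≤ Real.exp (A * (1 / (4 * A) * Real.log g + C0 + 1) + (1/2) * Real.log m) :=
        Real.exp_le_exp.mpr h3
    _ = Real.exp (A * (1 / (4 * A) * Real.log g + C0 + 1)) * Real.sqrt m := by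
        rw [Real.exp_add]
        congr 1
        rw [Real.sqrt_eq_rpow, Real.rpow_def_of_pos hm0]
        ring_nf

/-- The Romanoff-type average. -/
theorem romanoff_avg (g : ℕ) (hg : 2 ≤ g) (K : ℕ) : ∃ M : ℝ, 0 < M ∧ ∀ H L : ℕ,
    ∑ j ∈ Icc 1 L, ∏ p ∈ (primesIoc 1 H).filter (fun p => p ∣ g ^ j - 1), ww K p ≤ M * L := by
  classical
  obtain ⟨C, hC0, hC⟩ := prod_small_order_le g hg (A := 2 ^ (K+1)) (by positivity)
  refine ⟨3 * C, by positivity, fun H L => ?_⟩
  set P := (primesIoc 1 H).filter (fun p => ¬ p ∣ g) with hP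
  have hPp : ∀ p ∈ P, p.Prime := fun p hp => (mem_filter.mp (mem_filter.mp hp).1).2
  set o : ℕ → ℕ := fun p => orderOf ((g : ℕ) : ZMod p) with ho
  have hdvd : ∀ p ∈ P, ∀ j, 1 ≤ j → (p ∣ g ^ j - 1 ↔ o p ∣ j) := by
    intro p hp j hj
    have hpp := hPp p hp
    have : Fact p.Prime := ⟨hpp⟩
    rw [ho]
    simp only
    rw [orderOf_dvd_iff_pow_eq_one, ← Nat.cast_pow, ← Nat.cast_one (R := ZMod p),
      ZMod.natCast_eq_natCast_iff]
    have hge : 1 ≤ g ^ j := Nat.one_le_pow _ _ (by omega)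
    rw [Nat.ModEq.comm, Nat.modEq_iff_dvd' hge]
  have hopos : ∀ p ∈ P, 0 < o p := by
    intro p hp
    have hpp := hPp p hp
    have : Fact p.Prime := ⟨hpp⟩
    have hg0 : ((g : ℕ) : ZMod p) ≠ 0 := by
      rw [Ne, ZMod.natCast_eq_zero_iff]
      exact (mem_filter.mp hp).2
    rw [ho]
    simp only
    rw [orderOf_pos_iff]
    exact isOfFinOrder_iff_pow_eq_one.mpr ⟨p - 1, by have := hpp.two_le; omega, ZMod.pow_card_sub_one_eq_one hg0⟩
  set w : ℕ → ℝ := fun p => ww K p - 1 with hw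
  have hw0 : ∀ p ∈ P, 0 ≤ w p := fun p hp => by
    have := one_le_ww K (hPp p hp)
    rw [hw]; simp only; linarith
  have hwA : ∀ p ∈ P, w p ≤ 2 ^ (K+1) / (p:ℝ) := fun p hp => ww_sub_one_le K (hPp p hp)
  -- rewrite the product
  have e1 : ∀ j ∈ Icc 1 L, ∏ p ∈ (primesIoc 1 H).filter (fun p => p ∣ g ^ j - 1), ww K p
      = ∑ D ∈ P.powerset, if D.lcm o ∣ j then ∏ p ∈ D, w p else 0 := by
    intro j hj
    rw [mem_Icc] at hj
    have e2 : (primesIoc 1 H).filter (fun p => p ∣ g ^ j - 1) = P.filter (fun p => o p ∣ j) := by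
      ext p
      rw [mem_filter, mem_filter]
      constructor
      · rintro ⟨h1, h2⟩
        have hng : ¬ p ∣ g := by
          intro hpg
          have h3 : p ∣ g ^ j := hpg.trans (dvd_pow_self g (by omega))
          have h4 : g ^ j - (g ^ j - 1) = 1 := by
            have : 1 ≤ g ^ j := Nat.one_le_pow _ _ (by omega)
            omega
          have h5 : p ∣ 1 := by
            rw [← h4]
            exact Nat.dvd_sub h3 h2
          exact (mem_filter.mp h1).2.one_lt.ne' (Nat.dvd_one.mp h5)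
        have hmem : p ∈ P := mem_filter.mpr ⟨h1, hng⟩
        exact ⟨hmem, (hdvd p hmem j hj.1).mp h2⟩
      · rintro ⟨h1, h2⟩
        exact ⟨(mem_filter.mp h1).1, (hdvd p h1 j hj.1).mpr h2⟩
    rw [e2]
    have e3 : ∏ p ∈ P.filter (fun p => o p ∣ j), ww K p
        = ∏ p ∈ P, (1 + if o p ∣ j then w p else 0) := by
      rw [Finset.prod_filter]
      refine Finset.prod_congr rfl fun p _ => ?_
      split_ifs
      · rw [hw]; ring
      · ring
    rw [e3, Finset.prod_one_add]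
    refine Finset.sum_congr rfl fun D _ => ?_
    by_cases hD : D.lcm o ∣ j
    · rw [if_pos hD]
      refine Finset.prod_congr rfl fun p hp => ?_
      rw [if_pos ((Finset.dvd_lcm hp).trans hD)]
    · rw [if_neg hD]
      have : ∃ p ∈ D, ¬ o p ∣ j := by
        by_contra hcon
        push Not at hcon
        exact hD (Finset.lcm_dvd hcon)
      obtain ⟨p, hp, hpj⟩ := this
      exact Finset.prod_eq_zero hp (if_neg hpj)
  rw [Finset.sum_congr rfl e1, Finset.sum_comm]
  -- weights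
  set W : Finset ℕ → ℝ := fun D => ∏ p ∈ D, w p with hWdef
  have hW0 : ∀ D ∈ P.powerset, 0 ≤ W D := fun D hD =>
    Finset.prod_nonneg fun p hp => hw0 p (Finset.mem_powerset.mp hD hp)
  have hlpos : ∀ D ∈ P.powerset, 0 < D.lcm o := by
    intro D hD
    rw [Nat.pos_iff_ne_zero, Ne, Finset.lcm_eq_zero_iff]
    rintro ⟨p, hp, h0⟩
    exact (hopos p (Finset.mem_powerset.mp hD hp)).ne' h0
  -- the count
  have e4 : ∀ D ∈ P.powerset, ∑ j ∈ Icc 1 L, (if D.lcm o ∣ j then ∏ p ∈ D, w p else 0)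
      ≤ (L:ℝ) * (if D.lcm o ≤ L then W D * (1 / ((D.lcm o : ℕ) : ℝ)) else 0) := by
    intro D hD
    rw [← Finset.sum_filter, Finset.sum_const, nsmul_eq_mul]
    have e5 : (Icc 1 L).filter (fun j => D.lcm o ∣ j) = (Ioc 0 L).filter (fun j => D.lcm o ∣ j) := by
      congr 1
    rw [e5, Nat.Ioc_filter_dvd_card_eq_div]
    have hl := hlpos D hD
    have hW := hW0 D hD
    have hWe : ∏ p ∈ D, w p = W D := rfl
    rw [hWe]
    split_ifs with h
    · have h1 : ((L / D.lcm o : ℕ) : ℝ) ≤ (L:ℝ) / ((D.lcm o : ℕ) : ℝ) := Nat.cast_div_le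
      calc ((L / D.lcm o : ℕ) : ℝ) * W D ≤ ((L:ℝ) / ((D.lcm o : ℕ) : ℝ)) * W D := by gcongr
        _ = _ := by ring
    · push Not at h
      rw [Nat.div_eq_of_lt h]
      simp
  refine (Finset.sum_le_sum e4).trans ?_
  rw [← Finset.mul_sum, mul_comm]
  apply mul_le_mul_of_nonneg_right _ (Nat.cast_nonneg L)
  -- expand 1/o
  have hF : ∀ m : ℕ, 1 ≤ m → ∑ D ∈ P.powerset, (if D.lcm o ≤ m then W D else 0) ≤ C * Real.sqrt m := by
    intro m hm
    set Pm := P.filter (fun p => o p ≤ m) with hPm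
    have h1 : ∑ D ∈ P.powerset, (if D.lcm o ≤ m then W D else 0) ≤ ∑ D ∈ Pm.powerset, W D := by
      rw [← Finset.sum_filter]
      apply Finset.sum_le_sum_of_subset_of_nonneg
      · intro D hD
        rw [mem_filter, Finset.mem_powerset] at hD
        rw [Finset.mem_powerset]
        intro p hp
        rw [hPm, mem_filter]
        refine ⟨hD.1 hp, ?_⟩
        exact (Nat.le_of_dvd (hlpos D (Finset.mem_powerset.mpr hD.1)) (Finset.dvd_lcm hp)).trans hD.2
      · intro D hD _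
        exact hW0 D (Finset.mem_powerset.mpr ((Finset.mem_powerset.mp hD).trans (filter_subset _ _)))
    refine h1.trans ?_
    rw [hWdef]
    simp only
    rw [← Finset.prod_one_add]
    have h2 : ∏ p ∈ Pm, (1 + w p) ≤ ∏ p ∈ Pm, (1 + 2 ^ (K+1) / (p:ℝ)) := by
      refine Finset.prod_le_prod (fun p hp => ?_) (fun p hp => ?_)
      · have := hw0 p (mem_filter.mp hp).1
        linarith
      · have := hwA p (mem_filter.mp hp).1
        linarith
    refine h2.trans (hC m hm Pm (fun p hp => hPp p (mem_filter.mp hp).1) ?_)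
    intro p hp
    rw [hPm, mem_filter] at hp
    refine ⟨o p, mem_Icc.mpr ⟨hopos p hp.1, hp.2⟩, ?_⟩
    exact (hdvd p hp.1 (o p) (hopos p hp.1)).mpr dvd_rfl
  rcases Nat.eq_zero_or_pos L with rfl | hL
  · have h0 : ∑ D ∈ P.powerset, (if D.lcm o ≤ 0 then W D * (1 / ((D.lcm o : ℕ) : ℝ)) else 0) = 0 := by
      refine Finset.sum_eq_zero fun D hD => ?_
      rw [if_neg]
      have := hlpos D hD
      omega
    rw [h0]
    positivity
  have e6 : ∀ D ∈ P.powerset, (if D.lcm o ≤ L then W D * (1 / ((D.lcm o : ℕ) : ℝ)) else 0)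
      = ∑ m ∈ Icc 1 L, (1 / ((m:ℝ) * (m + 1))) * (if D.lcm o ≤ m then W D else 0)
        + 1 / ((L:ℝ) + 1) * (if D.lcm o ≤ L then W D else 0) := by
    intro D hD
    split_ifs with h
    · rw [one_div_eq_sum (hlpos D hD) h, mul_add, Finset.mul_sum]
      congr 1
      · refine Finset.sum_congr rfl fun m _ => ?_
        split_ifs <;> ring
      · ring
    · symm
      rw [mul_zero, add_zero]
      refine Finset.sum_eq_zero fun m hm => ?_
      rw [mem_Icc] at hm
      rw [if_neg (by omega), mul_zero]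
  rw [Finset.sum_congr rfl e6, Finset.sum_add_distrib, Finset.sum_comm, ← Finset.mul_sum]
  have h7 : ∑ m ∈ Icc 1 L, ∑ D ∈ P.powerset, (1 / ((m:ℝ) * (m + 1))) * (if D.lcm o ≤ m then W D else 0)
      ≤ 2 * C := by
    calc ∑ m ∈ Icc 1 L, ∑ D ∈ P.powerset, (1 / ((m:ℝ) * (m + 1))) * (if D.lcm o ≤ m then W D else 0)
        ≤ ∑ m ∈ Icc 1 L, C * (1 / ((m:ℝ) * (m + 1)) * Real.sqrt m) := by
          refine Finset.sum_le_sum fun m hm => ?_
          rw [← Finset.mul_sum]
          have := hF m (mem_Icc.mp hm).1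
          calc 1 / ((m:ℝ) * (m + 1)) * ∑ D ∈ P.powerset, (if D.lcm o ≤ m then W D else 0)
              ≤ 1 / ((m:ℝ) * (m + 1)) * (C * Real.sqrt m) := by gcongr
            _ = _ := by ring
      _ = C * ∑ m ∈ Icc 1 L, 1 / ((m:ℝ) * (m + 1)) * Real.sqrt m := by rw [Finset.mul_sum]
      _ ≤ C * 2 := by
          apply mul_le_mul_of_nonneg_left (sum_inv_sqrt_le L) hC0.le
      _ = 2 * C := by ring
  have h8 : 1 / ((L:ℝ) + 1) * ∑ D ∈ P.powerset, (if D.lcm o ≤ L then W D else 0) ≤ C := by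
    have h9 := hF L hL
    have h10 : Real.sqrt L ≤ (L:ℝ) + 1 := by
      rw [Real.sqrt_le_left (by positivity)]
      have : (0:ℝ) ≤ L := Nat.cast_nonneg L
      nlinarith
    calc 1 / ((L:ℝ) + 1) * ∑ D ∈ P.powerset, (if D.lcm o ≤ L then W D else 0)
        ≤ 1 / ((L:ℝ) + 1) * (C * Real.sqrt L) := by gcongr
      _ ≤ 1 / ((L:ℝ) + 1) * (C * ((L:ℝ) + 1)) := by gcongr
      _ = C := by field_simp
  linarith

end Pool.Agent.HL2
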